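import Mathlib

/-!
# Averages over finite types
-/

namespace Pool.Agent.TH440.DC

open Finset

/-- the average of `f` over a finite type -/
noncomputable def av {X : Type*} [Fintype X] (f : X → ℝ) : ℝ := (∑ x, f x) / (Fintype.card X : ℝ)

variable {X Y Z : Type*} [Fintype X] [Fintype Y] [Fintype Z]

theorem card_pos' [Nonempty X] : (0 : ℝ) < (Fintype.card X : ℝ) := by
  exact_mod_cast Fintype.card_pos

theorem av_congr {f g : X → ℝ} (h : ∀ x, f x = g x) : av f = av g := by
  unfold av; rw [Finset.sum_congr rfl fun x _ => h x]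

theorem av_mono {f g : X → ℝ} (h : ∀ x, f x ≤ g x) : av f ≤ av g := by
  unfold av
  exact div_le_div_of_nonneg_right (Finset.sum_le_sum fun x _ => h x) (by positivity)

theorem av_nonneg {f : X → ℝ} (h : ∀ x, 0 ≤ f x) : 0 ≤ av f := by
  unfold av
  exact div_nonneg (Finset.sum_nonneg fun x _ => h x) (by positivity)

theorem av_add (f g : X → ℝ) : av (fun x => f x + g x) = av f + av g := by
  unfold av; rw [Finset.sum_add_distrib, add_div]

theorem av_sub (f g : X → ℝ) : av (fun x => f x - g x) = av f - av g := by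
  unfold av; rw [Finset.sum_sub_distrib, sub_div]

theorem av_mul_left (c : ℝ) (f : X → ℝ) : av (fun x => c * f x) = c * av f := by
  unfold av; rw [← Finset.mul_sum, mul_div_assoc]

theorem av_mul_right (c : ℝ) (f : X → ℝ) : av (fun x => f x * c) = av f * c := by
  unfold av; rw [← Finset.sum_mul]; ring

theorem av_const [Nonempty X] (c : ℝ) : av (fun _ : X => c) = c := by
  unfold av
  rw [Finset.sum_const, card_univ, nsmul_eq_mul]
  have := card_pos' (X := X)
  field_simp

theorem av_comm (f : X → Y → ℝ) :
    av (fun x => av (fun y => f x y)) = av (fun y => av (fun x => f x y)) := by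
  unfold av
  rw [← Finset.sum_div, ← Finset.sum_div, Finset.sum_comm]
  ring

theorem av_prod (f : X × Y → ℝ) : av f = av (fun x => av (fun y => f (x, y))) := by
  unfold av
  rw [← Finset.sum_div, Fintype.sum_prod_type, Fintype.card_prod]
  push_cast
  rw [div_div, mul_comm]

theorem av_equiv (e : X ≃ Y) (f : Y → ℝ) : av (fun x => f (e x)) = av f := by
  unfold av
  rw [Fintype.card_congr e, Equiv.sum_comp e f]

theorem av_finset_sum {ι : Type*} (s : Finset ι) (f : ι → X → ℝ) :
    av (fun x => ∑ i ∈ s, f i x) = ∑ i ∈ s, av (f i) := by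
  unfold av
  rw [Finset.sum_comm, Finset.sum_div]

theorem av_le_const [Nonempty X] {f : X → ℝ} {c : ℝ} (h : ∀ x, f x ≤ c) : av f ≤ c := by
  have := av_mono (g := fun _ => c) h
  rwa [av_const] at this

theorem const_le_av [Nonempty X] {f : X → ℝ} {c : ℝ} (h : ∀ x, c ≤ f x) : c ≤ av f := by
  have := av_mono (f := fun _ => c) h
  rwa [av_const] at this

/-- Jensen's inequality for the square -/
theorem sq_av_le [Nonempty X] (f : X → ℝ) : av f ^ 2 ≤ av (fun x => f x ^ 2) := by
  unfold av
  have hp := card_pos' (X := X)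
  have h1 := Finset.sum_mul_sq_le_sq_mul_sq (univ : Finset X) (fun _ => (1 : ℝ)) f
  simp only [one_mul, one_pow, Finset.sum_const, card_univ, nsmul_eq_mul, mul_one] at h1
  rw [div_pow, div_le_div_iff₀ (by positivity) hp]
  nlinarith

/-- Cauchy-Schwarz -/
theorem av_mul_sq_le (f g : X → ℝ) :
    av (fun x => f x * g x) ^ 2 ≤ av (fun x => f x ^ 2) * av (fun x => g x ^ 2) := by
  unfold av
  have h1 := Finset.sum_mul_sq_le_sq_mul_sq (univ : Finset X) f g
  rw [div_pow, div_mul_div_comm, ← sq]
  exact div_le_div_of_nonneg_right h1 (by positivity)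

theorem av_mul_av (f : X → ℝ) (g : Y → ℝ) :
    av f * av g = av (fun x => av (fun y => f x * g y)) := by
  have : ∀ x, av (fun y => f x * g y) = f x * av g := fun x => av_mul_left _ _
  rw [av_congr this, av_mul_right]

end Pool.Agent.TH440.DC
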