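import Pool.Agent.TH440.DC.Tuple

/-!
# de Caen's inequality for the clique densities of random tuples
-/

set_option linter.unusedSectionVars false
set_option linter.unusedVariables false
set_option linter.unnecessarySeqFocus false

namespace Pool.Agent.TH440.DC

open Finset

variable {V : Type*} [Fintype V] [DecidableEq V] [Nonempty V] (F : Finset (Finset V)) (r : ℕ)

/-- number of coordinates whose deletion leaves a clique -/
noncomputable def cc {ι : Type*} [Fintype ι] [DecidableEq ι] (S : ι → V) : ℝ :=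
  ∑ i : ι, ci F r S {i}ᶜ

section pointwise

variable {ι : Type*} [Fintype ι] [DecidableEq ι]

theorem cc_clique {S : ι → V} (h : ci F r S univ = 1) : cc F r S = Fintype.card ι := by
  unfold cc
  have : ∀ i ∈ (univ : Finset ι), ci F r S {i}ᶜ = 1 := by
    intro i _
    have h1 := ci_anti F (r := r) (S := S) (subset_univ ({i}ᶜ : Finset ι))
    have h2 := ci_le_one F r S {i}ᶜ
    linarith
  rw [Finset.sum_congr rfl this, Finset.sum_const, card_univ, nsmul_eq_mul, mul_one]

theorem cc_nonclique {S : ι → V} (h : ci F r S univ = 0) : cc F r S ≤ r := by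
  classical
  have h1 : ¬ Cl F r S univ := by
    intro hh
    unfold ci at h
    rw [if_pos hh] at h
    norm_num at h
  unfold Cl at h1
  push Not at h1
  obtain ⟨R, -, hR, hM⟩ := h1
  unfold cc
  have h2 : ∀ i ∈ (univ : Finset ι), ci F r S {i}ᶜ ≤ if i ∈ R then 1 else 0 := by
    intro i _
    split_ifs with hi
    · exact ci_le_one _ _ _ _
    · unfold ci
      rw [if_neg]
      intro hh
      refine hh R ?_ hR hM
      intro x hx
      rw [mem_compl, mem_singleton]
      rintro rfl
      exact hi hx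
  refine (Finset.sum_le_sum h2).trans ?_
  rw [Finset.sum_ite_mem, univ_inter, Finset.sum_const, hR, nsmul_eq_mul, mul_one]

theorem cc_nonneg (S : ι → V) : 0 ≤ cc F r S := Finset.sum_nonneg fun i _ => ci_nonneg _ _ _ _

theorem cc_pointwise {j : ℕ} (hj : Fintype.card ι = j + 1) (hrj : r ≤ j) (S : ι → V) :
    cc F r S * (cc F r S - 1) ≤
      ((r : ℝ) - 1) * cc F r S + ((j : ℝ) + 1) * ((j : ℝ) - r + 1) * ci F r S univ := by
  rcases ci_bit F r S univ with h | h
  · have h1 := cc_nonclique F r h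
    have h2 := cc_nonneg F r S
    rw [h, mul_zero, add_zero]
    nlinarith
  · rw [cc_clique F r h, h, hj]
    push_cast
    nlinarith

/-- square of the sum -/
theorem cc_sq (S : ι → V) : cc F r S * (cc F r S - 1) =
    ∑ i : ι, ∑ l ∈ univ.erase i, ci F r S {i}ᶜ * ci F r S {l}ᶜ := by
  have h1 : cc F r S * cc F r S = ∑ i : ι, ∑ l : ι, ci F r S {i}ᶜ * ci F r S {l}ᶜ := by
    unfold cc
    rw [Finset.sum_mul_sum]
  have h2 : ∀ i : ι, ∑ l : ι, ci F r S {i}ᶜ * ci F r S {l}ᶜ =
      (∑ l ∈ univ.erase i, ci F r S {i}ᶜ * ci F r S {l}ᶜ) + ci F r S {i}ᶜ := by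
    intro i
    rw [← Finset.sum_erase_add _ _ (mem_univ i)]
    congr 1
    rcases ci_bit F r S {i}ᶜ with h | h <;> rw [h] <;> norm_num
  rw [Finset.sum_congr rfl fun i _ => h2 i, Finset.sum_add_distrib] at h1
  have h3 : cc F r S = ∑ i : ι, ci F r S {i}ᶜ := rfl
  rw [← h3] at h1
  linarith

end pointwise

/-- density of the pairs of cliques of size `j + 1` with `j` common vertices -/
noncomputable def qq (j : ℕ) : ℝ :=
  av fun A : Fin j → V => (av fun x : V => ci F r (Sum.elim A ![x] : Fin j ⊕ Fin 1 → V) univ) ^ 2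

theorem av_pair {ι : Type*} [Fintype ι] [DecidableEq ι] {j : ℕ} (hj : Fintype.card ι = j + 2)
    {i l : ι} (hil : i ≠ l) : av (fun S : ι → V => ci F r S {i}ᶜ * ci F r S {l}ᶜ) = qq F r j := by
  let e : Fin 2 ↪ ι := ⟨![i, l], by
    intro a b hab
    fin_cases a <;> fin_cases b <;> simp_all⟩
  obtain ⟨σ, hσ⟩ := exists_sum_equiv hj e
  have e0 : e 0 = i := rfl
  have e1 : e 1 = l := rfl
  rw [av_reindex σ]
  have h1 : ∀ S : Fin j ⊕ Fin 2 → V, ci F r (S ∘ σ.symm) {i}ᶜ * ci F r (S ∘ σ.symm) {l}ᶜ =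
      ci F r S {Sum.inr 0}ᶜ * ci F r S {Sum.inr 1}ᶜ := by
    intro S
    have a1 := ci_comp F r σ.symm.toEmbedding S {σ (Sum.inr 0)}ᶜ
    have a2 := ci_comp F r σ.symm.toEmbedding S {σ (Sum.inr 1)}ᶜ
    rw [compl_map] at a1 a2
    rw [hσ, e0] at a1
    rw [hσ, e1] at a2
    rw [← a1, ← a2]
    rfl
  rw [av_congr h1, av_sumArrow]
  unfold qq
  refine av_congr fun A => ?_
  rw [av_fin_two, sq, av_mul_av, av_comm]
  refine av_congr fun x => av_congr fun y => ?_
  rw [mul_comm]
  have f1 : ∀ (a b : V) (k : Fin 2) (c : V), ![a, b] (k.succAbove 0) = c →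
      ci F r (Sum.elim A ![a, b] : Fin j ⊕ Fin 2 → V) {Sum.inr k}ᶜ =
        ci F r (Sum.elim A ![c] : Fin j ⊕ Fin 1 → V) univ := by
    intro a b k c hc
    let φ : Fin j ⊕ Fin 1 ↪ Fin j ⊕ Fin 2 :=
      ⟨Sum.map id k.succAbove, Function.Injective.sumMap Function.injective_id
        (Fin.succAbove_right_injective)⟩
    have h2 := ci_comp F r φ (Sum.elim A ![a, b] : Fin j ⊕ Fin 2 → V) univ
    have h3 : (univ : Finset (Fin j ⊕ Fin 1)).map φ = {Sum.inr k}ᶜ := by
      ext z
      simp only [mem_map, mem_univ, true_and, mem_compl, mem_singleton]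
      constructor
      · rintro ⟨w, rfl⟩
        rcases w with w | w
        · simp [φ]
        · simp [φ, Fin.succAbove_ne]
      · intro hz
        rcases z with z | z
        · exact ⟨Sum.inl z, rfl⟩
        · have hz' : z ≠ k := fun h => hz (by rw [h])
          obtain ⟨w, hw⟩ := Fin.exists_succAbove_eq hz'
          exact ⟨Sum.inr w, by simp [φ, hw]⟩
    rw [h3] at h2
    rw [← h2]
    congr 1
    funext z
    rcases z with z | z
    · rfl
    · have : z = 0 := Subsingleton.elim _ _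
      subst this
      simp only [Function.comp, φ, Function.Embedding.coeFn_mk, Sum.map_inr, Sum.elim_inr]
      rw [hc]; rfl
  rw [f1 y x 0 x rfl, f1 y x 1 y rfl, mul_comm]

theorem av_ext (j : ℕ) :
    (av fun A : Fin j → V => av fun x : V => ci F r (Sum.elim A ![x] : Fin j ⊕ Fin 1 → V) univ) =
      pp F r (j + 1) := by
  have h : Fintype.card (Fin j ⊕ Fin 1) = j + 1 := by simp
  have h2 : (univ : Finset (Fin j ⊕ Fin 1)).card = j + 1 := by rw [card_univ, h]
  rw [← av_ci F r h2, av_sumArrow]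
  refine av_congr fun A => ?_
  rw [av_fin_one]

theorem ext_le {j : ℕ} (A : Fin j → V) (x : V) :
    ci F r (Sum.elim A ![x] : Fin j ⊕ Fin 1 → V) univ ≤ ci F r A univ := by
  have h := ci_comp F r (Function.Embedding.inl : Fin j ↪ Fin j ⊕ Fin 1)
    (Sum.elim A ![x] : Fin j ⊕ Fin 1 → V) univ
  have h2 : (Sum.elim A ![x] : Fin j ⊕ Fin 1 → V) ∘
      (Function.Embedding.inl : Fin j ↪ Fin j ⊕ Fin 1) = A := rfl
  rw [h2] at h
  rw [h]
  exact ci_anti F (subset_univ _)

theorem pp_sq_le (j : ℕ) : pp F r (j + 1) ^ 2 ≤ pp F r j * qq F r j := by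
  have h1 := av_mul_sq_le (fun A : Fin j → V => ci F r A univ)
    (fun A : Fin j → V => av fun x : V => ci F r (Sum.elim A ![x] : Fin j ⊕ Fin 1 → V) univ)
  have h2 : ∀ A : Fin j → V, ci F r A univ *
      (av fun x : V => ci F r (Sum.elim A ![x] : Fin j ⊕ Fin 1 → V) univ) =
      av fun x : V => ci F r (Sum.elim A ![x] : Fin j ⊕ Fin 1 → V) univ := by
    intro A
    rcases ci_bit F r A univ with h | h
    · have : ∀ x, ci F r (Sum.elim A ![x] : Fin j ⊕ Fin 1 → V) univ = 0 := by
        intro x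
        have := ext_le F r A x
        have := ci_nonneg F r (Sum.elim A ![x] : Fin j ⊕ Fin 1 → V) univ
        linarith
      rw [h, zero_mul, av_congr this, av_const]
    · rw [h, one_mul]
  have h3 : ∀ A : Fin j → V, ci F r A univ ^ 2 = ci F r A univ := by
    intro A
    rcases ci_bit F r A univ with h | h <;> rw [h] <;> norm_num
  rw [av_congr h2, av_ext, av_congr h3] at h1
  exact h1

theorem av_cc {ι : Type*} [Fintype ι] [DecidableEq ι] {j : ℕ} (hj : Fintype.card ι = j + 1) :
    av (fun S : ι → V => cc F r S) = ((j : ℝ) + 1) * pp F r j := by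
  unfold cc
  rw [av_finset_sum]
  have : ∀ i ∈ (univ : Finset ι), av (fun S : ι → V => ci F r S {i}ᶜ) = pp F r j := by
    intro i _
    apply av_ci
    rw [card_compl, card_singleton, hj]
    omega
  rw [Finset.sum_congr rfl this, Finset.sum_const, card_univ, hj, nsmul_eq_mul]
  push_cast
  ring

theorem av_cc_sq {ι : Type*} [Fintype ι] [DecidableEq ι] {j : ℕ} (hj : Fintype.card ι = j + 2) :
    av (fun S : ι → V => cc F r S * (cc F r S - 1)) =
      ((j : ℝ) + 2) * ((j : ℝ) + 1) * qq F r j := by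
  rw [av_congr fun S => cc_sq F r S, av_finset_sum]
  have : ∀ i ∈ (univ : Finset ι), av (fun S : ι → V => ∑ l ∈ univ.erase i,
      ci F r S {i}ᶜ * ci F r S {l}ᶜ) = ((j : ℝ) + 1) * qq F r j := by
    intro i _
    rw [av_finset_sum]
    have h2 : ∀ l ∈ univ.erase i, av (fun S : ι → V => ci F r S {i}ᶜ * ci F r S {l}ᶜ) = qq F r j := by
      intro l hl
      exact av_pair F r hj (Finset.ne_of_mem_erase hl).symm
    rw [Finset.sum_congr rfl h2, Finset.sum_const, card_erase_of_mem (mem_univ i), card_univ, hj,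
      nsmul_eq_mul]
    push_cast
    ring
  rw [Finset.sum_congr rfl this, Finset.sum_const, card_univ, hj, nsmul_eq_mul]
  push_cast
  ring

/-- de Caen's inequality -/
theorem deCaen {j : ℕ} (hrj : r ≤ j + 1) :
    ((j : ℝ) + 1) * pp F r (j + 1) ^ 2 ≤
      pp F r j * (((r : ℝ) - 1) * pp F r (j + 1) + ((j : ℝ) + 2 - r) * pp F r (j + 2)) := by
  have hc : Fintype.card (Fin (j + 2)) = j + 2 := Fintype.card_fin _
  have h1 : av (fun S : Fin (j + 2) → V => cc F r S * (cc F r S - 1)) ≤
      av fun S : Fin (j + 2) → V => (((r : ℝ) - 1) * cc F r S +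
        ((j : ℝ) + 2) * ((j : ℝ) + 2 - r) * ci F r S univ) := by
    refine av_mono fun S => ?_
    have h := cc_pointwise F r (j := j + 1) hc hrj S
    push_cast at h
    refine h.trans (le_of_eq ?_)
    ring
  rw [av_cc_sq F r hc, av_add, av_mul_left, av_mul_left, av_cc F r (j := j + 1) hc] at h1
  have h2 : (av fun S : Fin (j + 2) → V => ci F r S univ) = pp F r (j + 2) := rfl
  rw [h2] at h1
  push_cast at h1
  have h3 : ((j : ℝ) + 1) * qq F r j ≤
      ((r : ℝ) - 1) * pp F r (j + 1) + ((j : ℝ) + 2 - r) * pp F r (j + 2) := by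
    have hp : (0 : ℝ) < (j : ℝ) + 2 := by positivity
    have : ((j : ℝ) + 2) * (((j : ℝ) + 1) * qq F r j) ≤ ((j : ℝ) + 2) *
        (((r : ℝ) - 1) * pp F r (j + 1) + ((j : ℝ) + 2 - r) * pp F r (j + 2)) := by
      nlinarith
    exact le_of_mul_le_mul_left this hp
  have h4 := pp_sq_le F r j
  have h5 := pp_nonneg F r j
  calc ((j : ℝ) + 1) * pp F r (j + 1) ^ 2 ≤ ((j : ℝ) + 1) * (pp F r j * qq F r j) := by
        apply mul_le_mul_of_nonneg_left h4; positivity
    _ = pp F r j * (((j : ℝ) + 1) * qq F r j) := by ring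
    _ ≤ _ := mul_le_mul_of_nonneg_left h3 h5

theorem pp_succ_le (j : ℕ) : pp F r (j + 1) ≤ pp F r j := by
  have h : Fintype.card (Fin j ⊕ Fin 1) = j + 1 := by simp
  rw [← av_ext]
  refine av_mono fun A => ?_
  refine av_le_const fun x => ext_le F r A x

theorem pp_anti {i j : ℕ} (h : i ≤ j) : pp F r j ≤ pp F r i :=
  antitone_nat_of_succ_le (fun n => pp_succ_le F r n) h

/-- the chain of inequalities -/
theorem chain {x : ℝ} (hr : 2 ≤ r) (h0 : pp F r r - pp F r (r + 1) ≤ (r : ℝ) * x * pp F r r) (hx : 0 ≤ x) :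
    ∀ j : ℕ, r ≤ j → 0 < pp F r j → pp F r j - pp F r (j + 1) ≤ (j.choose (r - 1) : ℝ) * x * pp F r j := by
  intro j hj
  induction j, hj using Nat.le_induction with
  | base =>
    intro _
    have : r.choose (r - 1) = r := by
      obtain ⟨s, rfl⟩ : ∃ s, r = s + 1 := ⟨r - 1, by omega⟩
      simp
    rw [this]
    exact h0
  | succ j hj ih =>
    intro hp
    have hp' : 0 < pp F r j := lt_of_lt_of_le hp (pp_succ_le F r j)
    have h1 := ih hp'
    have h2 := deCaen F r (j := j) (by omega)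
    set C := (j.choose (r - 1) : ℝ) with hC
    have hC0 : 0 ≤ C := by positivity
    have h3 : (1 - C * x) * pp F r j ≤ pp F r (j + 1) := by nlinarith
    have h4 : ((j + 1).choose (r - 1) : ℝ) * ((j : ℝ) + 2 - r) = ((j : ℝ) + 1) * C := by
      have h5 := Nat.choose_mul_succ_eq j (r - 1)
      have h6 : j + 1 - (r - 1) = j + 2 - r := by omega
      rw [h6] at h5
      have h7 : ((j.choose (r - 1) * (j + 1) : ℕ) : ℝ) = (((j + 1).choose (r - 1) * (j + 2 - r) : ℕ) : ℝ) := by
        rw [h5]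
      push_cast [Nat.cast_sub (show r ≤ j + 2 by omega)] at h7
      rw [hC]
      linarith
    have hd : (0 : ℝ) < (j : ℝ) + 2 - r := by
      have : (r : ℝ) ≤ j := by exact_mod_cast hj
      linarith
    set P := pp F r (j + 1) with hP
    set Q := pp F r (j + 2) with hQ
    -- (j+1) P (1 - C x) ≤ (r-1) P + (j+2-r) Q
    have h8 : ((j : ℝ) + 1) * P * (1 - C * x) ≤ ((r : ℝ) - 1) * P + ((j : ℝ) + 2 - r) * Q := by
      by_cases hneg : 1 - C * x ≤ 0
      · have a1 : ((j : ℝ) + 1) * P * (1 - C * x) ≤ 0 :=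
          mul_nonpos_of_nonneg_of_nonpos (by positivity) hneg
        have a2 : 0 ≤ ((r : ℝ) - 1) * P := by
          apply mul_nonneg _ hp.le
          have : (2 : ℝ) ≤ r := by exact_mod_cast hr
          linarith
        have a3 : 0 ≤ ((j : ℝ) + 2 - r) * Q := mul_nonneg hd.le (pp_nonneg F r _)
        linarith
      · push Not at hneg
        have a1 : ((j : ℝ) + 1) * P * ((1 - C * x) * pp F r j) ≤ ((j : ℝ) + 1) * P * P :=
          mul_le_mul_of_nonneg_left h3 (by positivity)
        have a2 : pp F r j * (((j : ℝ) + 1) * P * (1 - C * x)) ≤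
            pp F r j * (((r : ℝ) - 1) * P + ((j : ℝ) + 2 - r) * Q) := by nlinarith
        exact le_of_mul_le_mul_left a2 hp'
    have h9 : ((j : ℝ) + 2 - r) * (P - Q) ≤ ((j : ℝ) + 2 - r) *
        (((j + 1).choose (r - 1) : ℝ) * x * P) := by
      have : ((j : ℝ) + 2 - r) * (((j + 1).choose (r - 1) : ℝ) * x * P) =
          ((j : ℝ) + 1) * C * x * P := by rw [← h4]; ring
      rw [this]
      nlinarith
    exact le_of_mul_le_mul_left h9 hd

/-- final form of the chain -/
theorem chain_final {x : ℝ} {k : ℕ} (hr : 2 ≤ r) (hk : r < k)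
    (h0 : pp F r r - pp F r (r + 1) ≤ (r : ℝ) * x * pp F r r) (hx : 0 ≤ x) (hp : 0 < pp F r r)
    (hpk : pp F r k = 0) : 1 ≤ ((k - 1).choose (r - 1) : ℝ) * x := by
  classical
  -- the last index with a positive density
  have hex : ∃ j, r ≤ j ∧ j < k ∧ 0 < pp F r j ∧ pp F r (j + 1) = 0 := by
    by_contra hcon
    push Not at hcon
    have : ∀ j, r ≤ j → j ≤ k → 0 < pp F r j := by
      intro j hj
      induction j, hj using Nat.le_induction with
      | base => intro _; exact hp
      | succ j hj ih =>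
        intro hjk
        have h1 := hcon j hj (by omega) (ih (by omega))
        exact lt_of_le_of_ne (pp_nonneg F r _) (Ne.symm h1)
    have := this k hk.le le_rfl
    rw [hpk] at this
    exact lt_irrefl _ this
  obtain ⟨j, hj1, hj2, hj3, hj4⟩ := hex
  have h1 := chain F r hr h0 hx j hj1 hj3
  rw [hj4, sub_zero] at h1
  have h2 : 1 ≤ (j.choose (r - 1) : ℝ) * x := by
    by_contra hcon
    push Not at hcon
    nlinarith
  have h3 : (j.choose (r - 1) : ℝ) ≤ ((k - 1).choose (r - 1) : ℝ) := by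
    exact_mod_cast Nat.choose_le_choose (r - 1) (by omega : j ≤ k - 1)
  nlinarith

end Pool.Agent.TH440.DC
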