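import Pool.Agent.TH440.DC.Av

/-!
# Codegree variance and broken cherries of a 3-graph

`τ` is the indicator of a symmetric ternary relation (a 3-graph, degenerate triples allowed).
`cherry τ` is the density of the quadruples `x y u u'` with `x y u`, `x y u'` in the relation and
`x u u'` not in it.
-/

set_option linter.unusedSectionVars false
set_option linter.unusedVariables false
set_option linter.unnecessarySeqFocus false

namespace Pool.Agent.TH440.DC

open Finset

/-- `τ` is the indicator of a symmetric ternary relation -/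
structure Sym3 {V : Type*} (τ : V → V → V → ℝ) : Prop where
  bit : ∀ x y z, τ x y z = 0 ∨ τ x y z = 1
  s12 : ∀ x y z, τ x y z = τ y x z
  s23 : ∀ x y z, τ x y z = τ x z y

variable {V : Type*} [Fintype V]

/-- codegree -/
noncomputable def dg (τ : V → V → V → ℝ) (x y : V) : ℝ := av fun z => τ x y z

/-- degree -/
noncomputable def eg (τ : V → V → V → ℝ) (u : V) : ℝ := av fun x => dg τ x u

/-- density of broken cherries -/
noncomputable def cherry (τ : V → V → V → ℝ) : ℝ :=
  av fun x => av fun y => av fun u => av fun u' => τ x y u * τ x y u' * (1 - τ x u u')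

open Classical in
/-- indicator of `d(x,u) ≤ K` and `e(u) ≤ K` -/
noncomputable def gd (τ : V → V → V → ℝ) (K : ℝ) (x u : V) : ℝ :=
  if dg τ x u ≤ K ∧ eg τ u ≤ K then 1 else 0

/-- truncated codegree -/
noncomputable def ph (τ : V → V → V → ℝ) (K : ℝ) (x u : V) : ℝ := dg τ x u * gd τ K x u

/-- the density of the configurations `x y u`, `z w u` in the relation, `x z u` not, truncated -/
noncomputable def Mx (τ : V → V → V → ℝ) (K : ℝ) : ℝ :=
  av fun x => av fun z => av fun u => ph τ K x u * ph τ K z u * (1 - τ x z u)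

section basic

variable {τ : V → V → V → ℝ}

theorem Sym3.nonneg (hτ : Sym3 τ) (x y z : V) : 0 ≤ τ x y z := by
  rcases hτ.bit x y z with h | h <;> rw [h] <;> norm_num

theorem Sym3.le_one (hτ : Sym3 τ) (x y z : V) : τ x y z ≤ 1 := by
  rcases hτ.bit x y z with h | h <;> rw [h] <;> norm_num

theorem dg_nonneg (hτ : Sym3 τ) (x y : V) : 0 ≤ dg τ x y := av_nonneg fun z => hτ.nonneg _ _ _

theorem dg_le_one [Nonempty V] (hτ : Sym3 τ) (x y : V) : dg τ x y ≤ 1 :=
  av_le_const fun z => hτ.le_one _ _ _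

theorem dg_comm (hτ : Sym3 τ) (x y : V) : dg τ x y = dg τ y x := av_congr fun z => hτ.s12 _ _ _

theorem av_mid (hτ : Sym3 τ) (x u : V) : av (fun y => τ x y u) = dg τ x u :=
  av_congr fun y => hτ.s23 _ _ _

theorem eg_nonneg (hτ : Sym3 τ) (u : V) : 0 ≤ eg τ u := av_nonneg fun z => dg_nonneg hτ _ _

theorem gd_bit (τ : V → V → V → ℝ) (K : ℝ) (x u : V) : gd τ K x u = 0 ∨ gd τ K x u = 1 := by
  unfold gd; split_ifs <;> simp

theorem gd_nonneg (τ : V → V → V → ℝ) (K : ℝ) (x u : V) : 0 ≤ gd τ K x u := by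
  rcases gd_bit τ K x u with h | h <;> rw [h] <;> norm_num

theorem gd_le_one (τ : V → V → V → ℝ) (K : ℝ) (x u : V) : gd τ K x u ≤ 1 := by
  rcases gd_bit τ K x u with h | h <;> rw [h] <;> norm_num

theorem ph_nonneg (hτ : Sym3 τ) (K : ℝ) (x u : V) : 0 ≤ ph τ K x u :=
  mul_nonneg (dg_nonneg hτ _ _) (gd_nonneg _ _ _ _)

theorem ph_le_dg (hτ : Sym3 τ) (K : ℝ) (x u : V) : ph τ K x u ≤ dg τ x u :=
  mul_le_of_le_one_right (dg_nonneg hτ _ _) (gd_le_one _ _ _ _)

theorem ph_le_K {K : ℝ} (hK : 0 ≤ K) (x u : V) : ph τ K x u ≤ K := by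
  unfold ph gd
  split_ifs with h
  · rw [mul_one]; exact h.1
  · rw [mul_zero]; exact hK

theorem ph_eq_zero {K : ℝ} {u : V} (h : ¬ eg τ u ≤ K) (x : V) : ph τ K x u = 0 := by
  unfold ph gd
  rw [if_neg (fun hh => h hh.2), mul_zero]

theorem av_ph_le (hτ : Sym3 τ) {K : ℝ} (hK : 0 ≤ K) (u : V) : av (fun x => ph τ K x u) ≤ K := by
  by_cases h : eg τ u ≤ K
  · exact (av_mono fun x => ph_le_dg hτ K x u).trans h
  · have : ∀ x, ph τ K x u = 0 := fun x => ph_eq_zero h x
    rw [av_congr this]
    unfold av; simpa using hK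

theorem cherry_eq (τ : V → V → V → ℝ) : cherry τ = av fun p : V × V => av fun r : V × V =>
    τ p.1 p.2 r.1 * τ p.1 p.2 r.2 * (1 - τ p.1 r.1 r.2) := by
  unfold cherry
  rw [av_prod]
  refine av_congr fun x => av_congr fun y => ?_
  rw [av_prod]

theorem cherry_nonneg (hτ : Sym3 τ) : 0 ≤ cherry τ := by
  refine av_nonneg fun x => av_nonneg fun y => av_nonneg fun u => av_nonneg fun u' => ?_
  exact mul_nonneg (mul_nonneg (hτ.nonneg _ _ _) (hτ.nonneg _ _ _)) (by linarith [hτ.le_one x u u'])

end basic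

section cs

variable [Nonempty V] {τ : V → V → V → ℝ}

/-- summand of the configuration count, `p = (x, y)`, `q = (z, w)` -/
noncomputable def Pf (τ : V → V → V → ℝ) (K : ℝ) (p q : V × V) (u : V) : ℝ :=
  τ p.1 p.2 u * gd τ K p.1 u * (τ q.1 q.2 u * gd τ K q.1 u) * (1 - τ p.1 q.1 u)

theorem Mx_eq (hτ : Sym3 τ) (K : ℝ) :
    Mx τ K = av fun p : V × V => av fun q : V × V => av fun u => Pf τ K p q u := by
  symm
  rw [av_prod]
  unfold Mx
  refine av_congr fun x => ?_
  have h1 : ∀ y, (av fun q : V × V => av fun u => Pf τ K (x, y) q u) =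
      av fun z => av fun w => av fun u => Pf τ K (x, y) (z, w) u := fun y => av_prod _
  rw [av_congr h1, av_comm]
  refine av_congr fun z => ?_
  have h2 : ∀ y, (av fun w => av fun u => Pf τ K (x, y) (z, w) u) =
      av fun u => av fun w => Pf τ K (x, y) (z, w) u := fun y => av_comm _
  rw [av_congr h2, av_comm]
  refine av_congr fun u => ?_
  have h3 : ∀ y, (av fun w => Pf τ K (x, y) (z, w) u) =
      τ x y u * gd τ K x u * ph τ K z u * (1 - τ x z u) := by
    intro y
    unfold Pf ph
    simp only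
    rw [av_mul_right, av_mul_left, av_mul_right, av_mid hτ]
  rw [av_congr h3, av_mul_right, av_mul_right, av_mul_right, av_mid hτ]
  rfl

theorem Mx_sq_le (hτ : Sym3 τ) (K : ℝ) :
    Mx τ K ^ 2 ≤ av fun p : V × V => av fun q : V × V => av fun r : V × V =>
      Pf τ K p q r.1 * Pf τ K p q r.2 := by
  rw [Mx_eq hτ]
  refine (sq_av_le _).trans (av_mono fun p => ?_)
  refine (sq_av_le _).trans (av_mono fun q => ?_)
  rw [sq, av_mul_av, av_prod]

/-- the pointwise decomposition -/
theorem pointwise (hτ : Sym3 τ) (K : ℝ) (x y z w u u' : V) :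
    Pf τ K (x, y) (z, w) u * Pf τ K (x, y) (z, w) u' ≤
      τ x y u * τ x y u' * (1 - τ x u u') * (τ z w u * gd τ K z u) +
      τ z w u * τ z w u' * (1 - τ z u u') * (τ x y u * gd τ K x u * τ x u u') +
      τ x u u' * τ z u u' * (1 - τ x z u) * (τ x y u * gd τ K x u) * (τ z w u * gd τ K z u) := by
  unfold Pf
  simp only
  have b1 := hτ.nonneg x y u
  have b1' := hτ.nonneg x y u'
  have b2 := hτ.nonneg z w u
  have b2' := hτ.nonneg z w u'
  have g1 := gd_nonneg τ K x u
  have g2 := gd_nonneg τ K z u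
  have h1 := hτ.le_one x z u'
  have h1' := hτ.nonneg x z u'
  have h2 := hτ.le_one x z u
  have h2' := hτ.nonneg x z u
  have l1 := hτ.le_one x y u'
  have l2 := hτ.le_one z w u'
  have k1 := gd_le_one τ K x u'
  have k2 := gd_le_one τ K z u'
  have k1' := gd_nonneg τ K x u'
  have k2' := gd_nonneg τ K z u'
  have c3 : 0 ≤ 1 - τ x z u := by linarith
  have c3' : 1 - τ x z u ≤ 1 := by linarith
  have c4 : 0 ≤ 1 - τ x z u' := by linarith
  have c4' : 1 - τ x z u' ≤ 1 := by linarith
  set a := τ x y u * gd τ K x u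
  set b := τ z w u * gd τ K z u
  have ha : 0 ≤ a := mul_nonneg b1 g1
  have hb : 0 ≤ b := mul_nonneg b2 g2
  have hal : a ≤ τ x y u := mul_le_of_le_one_right b1 (gd_le_one _ _ _ _)
  have hbl : b ≤ τ z w u := mul_le_of_le_one_right b2 (gd_le_one _ _ _ _)
  -- the product is at most a * b * (1 - τ x z u) * τ x y u' * τ z w u'
  have key : a * b * (1 - τ x z u) * (τ x y u' * gd τ K x u' * (τ z w u' * gd τ K z u') *
      (1 - τ x z u')) ≤ a * b * (1 - τ x z u) * (τ x y u' * τ z w u') := by
    refine mul_le_mul_of_nonneg_left ?_ (by positivity)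
    have e1 : τ x y u' * gd τ K x u' ≤ τ x y u' := mul_le_of_le_one_right b1' k1
    have e2 : τ z w u' * gd τ K z u' ≤ τ z w u' := mul_le_of_le_one_right b2' k2
    have e3 : τ x y u' * gd τ K x u' * (τ z w u' * gd τ K z u') ≤ τ x y u' * τ z w u' :=
      mul_le_mul e1 e2 (by positivity) b1'
    calc _ ≤ τ x y u' * gd τ K x u' * (τ z w u' * gd τ K z u') * 1 :=
          mul_le_mul_of_nonneg_left c4' (by positivity)
      _ ≤ _ := by rw [mul_one]; exact e3
  refine key.trans ?_
  have lz := hτ.le_one z u u'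
  have nz := hτ.nonneg z u u'
  rcases hτ.bit x u u' with hx | hx
  · rw [hx]
    have t1 : a * b * (1 - τ x z u) * (τ x y u' * τ z w u') ≤ τ x y u * τ x y u' * b := by
      calc a * b * (1 - τ x z u) * (τ x y u' * τ z w u')
          ≤ a * b * 1 * (τ x y u' * 1) := by gcongr
        _ = a * (τ x y u' * b) := by ring
        _ ≤ τ x y u * (τ x y u' * b) := by gcongr
        _ = _ := by ring
    have : 0 ≤ τ z w u * τ z w u' * (1 - τ z u u') * (a * 0) := by simp
    linarith
  · rw [hx]
    rcases hτ.bit z u u' with hz | hz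
    · rw [hz]
      have t1 : a * b * (1 - τ x z u) * (τ x y u' * τ z w u') ≤ τ z w u * τ z w u' * a := by
        calc a * b * (1 - τ x z u) * (τ x y u' * τ z w u')
            ≤ a * b * 1 * (1 * τ z w u') := by gcongr
          _ = b * (τ z w u' * a) := by ring
          _ ≤ τ z w u * (τ z w u' * a) := by gcongr
          _ = _ := by ring
      linarith
    · rw [hz]
      have t1 : a * b * (1 - τ x z u) * (τ x y u' * τ z w u') ≤ (1 - τ x z u) * a * b := by
        calc a * b * (1 - τ x z u) * (τ x y u' * τ z w u')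
            ≤ a * b * (1 - τ x z u) * (1 * 1) := by gcongr
          _ = _ := by ring
      linarith

end cs

end Pool.Agent.TH440.DC
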