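import Pool.Agent.TH440.DC.Core

/-!
# Upper bound for the configuration count
-/

set_option linter.unusedSectionVars false
set_option linter.unusedVariables false
set_option linter.unnecessarySeqFocus false

namespace Pool.Agent.TH440.DC

open Finset

variable {V : Type*} [Fintype V] [Nonempty V] {τ : V → V → V → ℝ}

/-- broken cherry -/
noncomputable def Br (τ : V → V → V → ℝ) (p r : V × V) : ℝ :=
  τ p.1 p.2 r.1 * τ p.1 p.2 r.2 * (1 - τ p.1 r.1 r.2)

theorem Br_nonneg (hτ : Sym3 τ) (p r : V × V) : 0 ≤ Br τ p r :=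
  mul_nonneg (mul_nonneg (hτ.nonneg _ _ _) (hτ.nonneg _ _ _)) (by linarith [hτ.le_one p.1 r.1 r.2])

theorem Br_le (hτ : Sym3 τ) (p r : V × V) : Br τ p r ≤ τ p.1 p.2 r.1 := by
  unfold Br
  have h1 := hτ.nonneg p.1 p.2 r.1
  have h2 := hτ.nonneg p.1 p.2 r.2
  have h3 := hτ.nonneg p.1 r.1 r.2
  have h4 := hτ.le_one p.1 p.2 r.2
  have h5 := hτ.le_one p.1 r.1 r.2
  calc τ p.1 p.2 r.1 * τ p.1 p.2 r.2 * (1 - τ p.1 r.1 r.2)
      ≤ τ p.1 p.2 r.1 * 1 * 1 := by
        apply mul_le_mul _ _ (by linarith) (by linarith)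
        · exact mul_le_mul_of_nonneg_left h4 h1
        · linarith
    _ = _ := by ring

/-- first term -/
theorem T1_le (hτ : Sym3 τ) {K : ℝ} (hK : 0 ≤ K) :
    (av fun p : V × V => av fun q : V × V => av fun r : V × V =>
      Br τ p r * (τ q.1 q.2 r.1 * gd τ K q.1 r.1)) ≤ K * cherry τ := by
  have h1 : ∀ p : V × V, (av fun q : V × V => av fun r : V × V =>
      Br τ p r * (τ q.1 q.2 r.1 * gd τ K q.1 r.1)) ≤ K * av fun r : V × V => Br τ p r := by
    intro p
    rw [av_comm, ← av_mul_left]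
    refine av_mono fun r => ?_
    rw [av_mul_left, mul_comm]
    refine mul_le_mul_of_nonneg_right ?_ (Br_nonneg hτ p r)
    rw [av_prod]
    have : ∀ z, (av fun w => τ z w r.1 * gd τ K z r.1) = ph τ K z r.1 := by
      intro z
      rw [av_mul_right, av_mid hτ]
      rfl
    rw [av_congr this]
    exact av_ph_le hτ hK r.1
  refine (av_mono h1).trans ?_
  rw [av_mul_left, cherry_eq]
  rfl

/-- second term, simple bound -/
theorem T2_le (hτ : Sym3 τ) {K : ℝ} (hK : 0 ≤ K) :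
    (av fun p : V × V => av fun q : V × V => av fun r : V × V =>
      Br τ q r * (τ p.1 p.2 r.1 * gd τ K p.1 r.1 * τ p.1 r.1 r.2)) ≤ K * cherry τ := by
  refine le_trans ?_ (T1_le hτ hK)
  rw [av_comm]
  refine av_mono fun q => av_mono fun p => av_mono fun r => ?_
  refine mul_le_mul_of_nonneg_left ?_ (Br_nonneg hτ _ _)
  exact mul_le_of_le_one_right (mul_nonneg (hτ.nonneg _ _ _) (gd_nonneg _ _ _ _)) (hτ.le_one _ _ _)

/-- second term, refined bound: the pairs with codegree larger than `L` are treated apart -/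
theorem T2_le' (hτ : Sym3 τ) {K L : ℝ} (hK : 0 ≤ K) (hL : 0 ≤ L) :
    (av fun p : V × V => av fun q : V × V => av fun r : V × V =>
      Br τ q r * (τ p.1 p.2 r.1 * gd τ K p.1 r.1 * τ p.1 r.1 r.2)) ≤
      K * (L * cherry τ + K * av fun x => av fun y => if dg τ x y ≤ L then 0 else dg τ x y) := by
  have e1 : (av fun p : V × V => av fun q : V × V => av fun r : V × V =>
      Br τ q r * (τ p.1 p.2 r.1 * gd τ K p.1 r.1 * τ p.1 r.1 r.2)) =
      av fun r : V × V => av fun q : V × V => Br τ q r * av fun x => ph τ K x r.1 * τ x r.1 r.2 := by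
    have h1 : ∀ p : V × V, (av fun q : V × V => av fun r : V × V =>
      Br τ q r * (τ p.1 p.2 r.1 * gd τ K p.1 r.1 * τ p.1 r.1 r.2)) =
        av fun r : V × V => av fun q : V × V =>
      Br τ q r * (τ p.1 p.2 r.1 * gd τ K p.1 r.1 * τ p.1 r.1 r.2) := fun p => av_comm _
    rw [av_congr h1, av_comm]
    refine av_congr fun r => ?_
    rw [av_comm]
    refine av_congr fun q => ?_
    rw [av_mul_left]
    congr 1
    rw [av_prod]
    refine av_congr fun x => ?_
    simp only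
    rw [av_mul_right, av_mul_right, av_mid hτ]
    rfl
  have b1 : ∀ r : V × V, (av fun x => ph τ K x r.1 * τ x r.1 r.2) ≤ K * dg τ r.1 r.2 := by
    intro r
    have : ∀ x, ph τ K x r.1 * τ x r.1 r.2 ≤ K * τ x r.1 r.2 := fun x =>
      mul_le_mul_of_nonneg_right (ph_le_K hK _ _) (hτ.nonneg _ _ _)
    refine (av_mono this).trans ?_
    rw [av_mul_left]
    refine le_of_eq ?_
    congr 1
    refine av_congr fun x => ?_
    rw [hτ.s12, hτ.s23]
  have b0 : ∀ r : V × V, ¬ eg τ r.1 ≤ K → (av fun x => ph τ K x r.1 * τ x r.1 r.2) = 0 := by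
    intro r h
    have : ∀ x, ph τ K x r.1 * τ x r.1 r.2 = (0 : ℝ) := fun x => by
      rw [ph_eq_zero h, zero_mul]
    rw [av_congr this, av_const]
  have b2 : ∀ r : V × V, (av fun q : V × V => Br τ q r) ≤ eg τ r.1 := by
    intro r
    refine (av_mono fun q => Br_le hτ q r).trans ?_
    rw [av_prod]
    unfold eg
    refine av_mono fun z => ?_
    simp only
    rw [av_mid hτ]
  have hBn : ∀ r : V × V, 0 ≤ av fun q : V × V => Br τ q r := fun r =>
    av_nonneg fun q => Br_nonneg hτ _ _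
  have main : ∀ r : V × V, (av fun q : V × V => Br τ q r * av fun x => ph τ K x r.1 * τ x r.1 r.2) ≤
      K * (L * (av fun q : V × V => Br τ q r) + K * if dg τ r.1 r.2 ≤ L then 0 else dg τ r.1 r.2) := by
    intro r
    rw [av_mul_right]
    set B := av fun q : V × V => Br τ q r with hB
    have hB0 : 0 ≤ B := hBn r
    by_cases he : eg τ r.1 ≤ K
    · have hBK : B ≤ K := (b2 r).trans he
      split_ifs with hd
      · calc B * (av fun x => ph τ K x r.1 * τ x r.1 r.2) ≤ B * (K * dg τ r.1 r.2) :=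
              mul_le_mul_of_nonneg_left (b1 r) hB0
          _ ≤ B * (K * L) := by gcongr
          _ = _ := by ring
      · have hd0 := dg_nonneg hτ r.1 r.2
        calc B * (av fun x => ph τ K x r.1 * τ x r.1 r.2) ≤ B * (K * dg τ r.1 r.2) :=
              mul_le_mul_of_nonneg_left (b1 r) hB0
          _ ≤ K * (K * dg τ r.1 r.2) := by gcongr
          _ ≤ _ := by
            have : 0 ≤ K * (L * B) := by positivity
            nlinarith
    · rw [b0 r he, mul_zero]
      have : 0 ≤ (if dg τ r.1 r.2 ≤ L then 0 else dg τ r.1 r.2) := by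
        split_ifs
        · exact le_refl _
        · exact dg_nonneg hτ _ _
      positivity
  rw [e1]
  refine (av_mono main).trans (le_of_eq ?_)
  rw [av_mul_left, av_add, av_mul_left, av_mul_left, av_comm, cherry_eq]
  congr 2
  congr 1
  rw [av_prod]

/-- third term -/
theorem T3_le (hτ : Sym3 τ) {K : ℝ} (hK : 0 ≤ K) :
    (av fun p : V × V => av fun q : V × V => av fun r : V × V =>
      τ p.1 r.1 r.2 * τ q.1 r.1 r.2 * (1 - τ p.1 q.1 r.1) * (τ p.1 p.2 r.1 * gd τ K p.1 r.1) *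
        (τ q.1 q.2 r.1 * gd τ K q.1 r.1)) ≤ K ^ 2 * cherry τ := by
  have e1 : (av fun p : V × V => av fun q : V × V => av fun r : V × V =>
      τ p.1 r.1 r.2 * τ q.1 r.1 r.2 * (1 - τ p.1 q.1 r.1) * (τ p.1 p.2 r.1 * gd τ K p.1 r.1) *
        (τ q.1 q.2 r.1 * gd τ K q.1 r.1)) =
      av fun r : V × V => av fun x => av fun z =>
        τ x r.1 r.2 * τ z r.1 r.2 * (1 - τ x z r.1) * ph τ K x r.1 * ph τ K z r.1 := by
    have h1 : ∀ p : V × V, (av fun q : V × V => av fun r : V × V =>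
      τ p.1 r.1 r.2 * τ q.1 r.1 r.2 * (1 - τ p.1 q.1 r.1) * (τ p.1 p.2 r.1 * gd τ K p.1 r.1) *
        (τ q.1 q.2 r.1 * gd τ K q.1 r.1)) =
        av fun r : V × V => av fun q : V × V =>
      τ p.1 r.1 r.2 * τ q.1 r.1 r.2 * (1 - τ p.1 q.1 r.1) * (τ p.1 p.2 r.1 * gd τ K p.1 r.1) *
        (τ q.1 q.2 r.1 * gd τ K q.1 r.1) := fun p => av_comm _
    rw [av_congr h1, av_comm]
    refine av_congr fun r => ?_
    rw [av_prod]
    refine av_congr fun x => ?_
    have h2 : ∀ y, (av fun q : V × V => τ x r.1 r.2 * τ q.1 r.1 r.2 * (1 - τ x q.1 r.1) *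
        (τ x y r.1 * gd τ K x r.1) * (τ q.1 q.2 r.1 * gd τ K q.1 r.1)) =
        av fun z => τ x r.1 r.2 * τ z r.1 r.2 * (1 - τ x z r.1) * (τ x y r.1 * gd τ K x r.1) *
          ph τ K z r.1 := by
      intro y
      rw [av_prod]
      refine av_congr fun z => ?_
      simp only
      rw [av_mul_left, av_mul_right, av_mid hτ]
      rfl
    simp only
    rw [av_congr h2, av_comm]
    refine av_congr fun z => ?_
    rw [av_mul_right, av_mul_left, av_mul_right, av_mid hτ]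
    rfl
  rw [e1]
  have e2 : cherry τ = av fun r : V × V => av fun x => av fun z =>
      τ x r.1 r.2 * τ z r.1 r.2 * (1 - τ x z r.1) := by
    rw [cherry_eq]
    refine av_congr fun r => ?_
    rw [av_prod]
    refine av_congr fun x => av_congr fun z => ?_
    simp only
    rw [hτ.s23 x r.1 r.2]
    have h1 : τ r.1 r.2 x = τ x r.2 r.1 := by rw [hτ.s23, hτ.s12, hτ.s23]
    have h2 : τ r.1 r.2 z = τ z r.1 r.2 := by rw [hτ.s23, hτ.s12, hτ.s23, hτ.s23]
    have h3 : τ r.1 x z = τ x z r.1 := by rw [hτ.s12, hτ.s23]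
    rw [h1, h2, h3]
  rw [e2, ← av_mul_left]
  refine av_mono fun r => ?_
  rw [← av_mul_left]
  refine av_mono fun x => ?_
  rw [← av_mul_left]
  refine av_mono fun z => ?_
  have h1 := ph_nonneg hτ K x r.1
  have h2 := ph_nonneg hτ K z r.1
  have h3 := ph_le_K (τ := τ) hK x r.1
  have h4 := ph_le_K (τ := τ) hK z r.1
  have h5 : 0 ≤ τ x r.1 r.2 * τ z r.1 r.2 * (1 - τ x z r.1) :=
    mul_nonneg (mul_nonneg (hτ.nonneg _ _ _) (hτ.nonneg _ _ _)) (by linarith [hτ.le_one x z r.1])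
  calc τ x r.1 r.2 * τ z r.1 r.2 * (1 - τ x z r.1) * ph τ K x r.1 * ph τ K z r.1
      = (τ x r.1 r.2 * τ z r.1 r.2 * (1 - τ x z r.1)) * (ph τ K x r.1 * ph τ K z r.1) := by ring
    _ ≤ (τ x r.1 r.2 * τ z r.1 r.2 * (1 - τ x z r.1)) * (K * K) := by gcongr
    _ = _ := by ring

theorem config_le (hτ : Sym3 τ) {K X : ℝ} (hK : 0 ≤ K)
    (hX : (av fun p : V × V => av fun q : V × V => av fun r : V × V =>
      Br τ q r * (τ p.1 p.2 r.1 * gd τ K p.1 r.1 * τ p.1 r.1 r.2)) ≤ X) :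
    Mx τ K ^ 2 ≤ K * cherry τ + X + K ^ 2 * cherry τ := by
  refine (Mx_sq_le hτ K).trans ?_
  have h1 : (av fun p : V × V => av fun q : V × V => av fun r : V × V =>
      Pf τ K p q r.1 * Pf τ K p q r.2) ≤ av fun p : V × V => av fun q : V × V => av fun r : V × V =>
      (Br τ p r * (τ q.1 q.2 r.1 * gd τ K q.1 r.1) +
      Br τ q r * (τ p.1 p.2 r.1 * gd τ K p.1 r.1 * τ p.1 r.1 r.2) +
      τ p.1 r.1 r.2 * τ q.1 r.1 r.2 * (1 - τ p.1 q.1 r.1) * (τ p.1 p.2 r.1 * gd τ K p.1 r.1) *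
        (τ q.1 q.2 r.1 * gd τ K q.1 r.1)) := by
    refine av_mono fun p => av_mono fun q => av_mono fun r => ?_
    exact pointwise hτ K p.1 p.2 q.1 q.2 r.1 r.2
  refine h1.trans ?_
  have h2 : ∀ p q : V × V, (av fun r : V × V =>
      (Br τ p r * (τ q.1 q.2 r.1 * gd τ K q.1 r.1) +
      Br τ q r * (τ p.1 p.2 r.1 * gd τ K p.1 r.1 * τ p.1 r.1 r.2) +
      τ p.1 r.1 r.2 * τ q.1 r.1 r.2 * (1 - τ p.1 q.1 r.1) * (τ p.1 p.2 r.1 * gd τ K p.1 r.1) *
        (τ q.1 q.2 r.1 * gd τ K q.1 r.1))) =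
      (av fun r : V × V => Br τ p r * (τ q.1 q.2 r.1 * gd τ K q.1 r.1)) +
      (av fun r : V × V => Br τ q r * (τ p.1 p.2 r.1 * gd τ K p.1 r.1 * τ p.1 r.1 r.2)) +
      (av fun r : V × V => τ p.1 r.1 r.2 * τ q.1 r.1 r.2 * (1 - τ p.1 q.1 r.1) *
        (τ p.1 p.2 r.1 * gd τ K p.1 r.1) * (τ q.1 q.2 r.1 * gd τ K q.1 r.1)) := by
    intro p q
    rw [av_add, av_add]
  rw [av_congr fun p => av_congr fun q => h2 p q]
  rw [av_congr fun p => by rw [av_add, av_add]]
  rw [av_add, av_add]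
  exact add_le_add (add_le_add (T1_le hτ hK) hX) (T3_le hτ hK)

end Pool.Agent.TH440.DC
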