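import Pool.Agent.TH440.DC.Core2

/-!
# The core inequality: codegree variance plus broken cherries is at least `c t^3`
-/

set_option linter.unusedSectionVars false
set_option linter.unusedVariables false
set_option linter.unnecessarySeqFocus false

namespace Pool.Agent.TH440.DC

open Finset

section single

variable {V : Type*} [Fintype V] [Nonempty V] {τ : V → V → V → ℝ}

theorem Mx_ge (hτ : Sym3 τ) (K : ℝ) :
    (av fun u => av fun x => ph τ K x u) ^ 2 - (av fun x => av fun u => dg τ x u ^ 3) ≤ Mx τ K := by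
  have e1 : Mx τ K = (av fun u => (av fun x => ph τ K x u) ^ 2) -
      av fun x => av fun z => av fun u => ph τ K x u * ph τ K z u * τ x z u := by
    have h1 : ∀ x z, (av fun u => ph τ K x u * ph τ K z u * (1 - τ x z u)) =
        (av fun u => ph τ K x u * ph τ K z u) -
          av fun u => ph τ K x u * ph τ K z u * τ x z u := by
      intro x z
      rw [← av_sub]
      exact av_congr fun u => by ring
    unfold Mx
    rw [av_congr fun x => av_congr fun z => h1 x z]
    rw [av_congr fun x => av_sub _ _, av_sub]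
    congr 1
    have h2 : ∀ x, (av fun z => av fun u => ph τ K x u * ph τ K z u) =
        av fun u => ph τ K x u * av fun z => ph τ K z u := by
      intro x
      rw [av_comm]
      exact av_congr fun u => av_mul_left _ _
    rw [av_congr h2, av_comm]
    refine av_congr fun u => ?_
    rw [av_mul_right, sq]
  have e2 : (av fun u => av fun x => ph τ K x u) ^ 2 ≤ av fun u => (av fun x => ph τ K x u) ^ 2 :=
    sq_av_le _
  have q1 : (av fun x => av fun z => av fun u => ph τ K x u ^ 2 * τ x z u) ≤
      av fun x => av fun u => dg τ x u ^ 3 := by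
    refine av_mono fun x => ?_
    rw [av_comm]
    refine av_mono fun u => ?_
    rw [av_mul_left, av_mid hτ]
    have h1 := ph_nonneg hτ K x u
    have h2 := ph_le_dg hτ K x u
    have h3 := dg_nonneg hτ x u
    calc ph τ K x u ^ 2 * dg τ x u ≤ dg τ x u ^ 2 * dg τ x u := by gcongr
      _ = _ := by ring
  have q2 : (av fun x => av fun z => av fun u => ph τ K z u ^ 2 * τ x z u) =
      av fun x => av fun z => av fun u => ph τ K x u ^ 2 * τ x z u := by
    rw [av_comm]
    refine av_congr fun z => av_congr fun x => av_congr fun u => ?_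
    rw [hτ.s12]
  have e3 : (av fun x => av fun z => av fun u => ph τ K x u * ph τ K z u * τ x z u) ≤
      av fun x => av fun u => dg τ x u ^ 3 := by
    have h1 : (av fun x => av fun z => av fun u => ph τ K x u * ph τ K z u * τ x z u) ≤
        av fun x => av fun z => av fun u =>
          ((1 / 2) * (ph τ K x u ^ 2 * τ x z u) + (1 / 2) * (ph τ K z u ^ 2 * τ x z u)) := by
      refine av_mono fun x => av_mono fun z => av_mono fun u => ?_
      have := hτ.nonneg x z u
      nlinarith [mul_nonneg (sq_nonneg (ph τ K x u - ph τ K z u)) this]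
    refine h1.trans ?_
    rw [av_congr fun x => av_congr fun z => av_add _ _]
    rw [av_congr fun x => av_add _ _, av_add]
    rw [av_congr fun x => av_congr fun z => av_mul_left _ _]
    rw [av_congr fun x => av_mul_left _ _, av_mul_left]
    rw [av_congr (f := fun x => av fun z => av fun u => (1 / 2) * (ph τ K z u ^ 2 * τ x z u))
      fun x => av_congr fun z => av_mul_left _ _]
    rw [av_congr (f := fun x => av fun z => (1 / 2) * av fun u => (ph τ K z u ^ 2 * τ x z u))
      fun x => av_mul_left _ _, av_mul_left]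
    rw [q2]
    linarith
  rw [e1]
  linarith

/-- truncation loss -/
noncomputable def big (K d : ℝ) : ℝ := if d ≤ K then 0 else d

theorem big_le {s t d : ℝ} (hs : 1 < s) (ht : 0 < t) :
    big (s * t) d ≤ s / ((s - 1) ^ 2 * t) * (d - t) ^ 2 := by
  have hs' : 0 < s - 1 := by linarith
  unfold big
  split_ifs with h
  · positivity
  · push Not at h
    rw [div_mul_eq_mul_div, le_div_iff₀ (by positivity)]
    have h1 : (s - 1) * t ≤ d - t := by nlinarith
    have h2 : (s - 1) * d ≤ s * (d - t) := by nlinarith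
    have h3 : 0 < d - t := lt_of_lt_of_le (by positivity) h1
    have h4 : 0 < d := by nlinarith
    calc d * ((s - 1) ^ 2 * t) = ((s - 1) * d) * ((s - 1) * t) := by ring
      _ ≤ (s * (d - t)) * (d - t) := by
        apply mul_le_mul h2 h1 (by positivity)
        have : 0 < s := by linarith
        positivity
      _ = s * (d - t) ^ 2 := by ring

theorem dg_le_ph_add (hτ : Sym3 τ) (K : ℝ) (x u : V) :
    dg τ x u ≤ ph τ K x u + big K (dg τ x u) + (if eg τ u ≤ K then 0 else dg τ x u) := by
  unfold ph gd big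
  have h0 := dg_nonneg hτ x u
  by_cases h1 : dg τ x u ≤ K <;> by_cases h2 : eg τ u ≤ K <;> simp [h1, h2] <;> linarith

/-- the variance of the degrees is at most the variance of the codegrees -/
theorem var_eg_le (t : ℝ) :
    (av fun u => (eg τ u - t) ^ 2) ≤ av fun x => av fun u => (dg τ x u - t) ^ 2 := by
  rw [av_comm]
  refine av_mono fun u => ?_
  have : eg τ u - t = av fun x => (dg τ x u - t) := by
    rw [av_sub, av_const]; rfl
  rw [this]
  exact sq_av_le _

theorem S1_ge (hτ : Sym3 τ) {s t : ℝ} (hs : 1 < s) (ht : 0 < t) :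
    (av fun x => av fun u => dg τ x u) -
      2 * (s / ((s - 1) ^ 2 * t)) * (av fun x => av fun u => (dg τ x u - t) ^ 2) ≤
      av fun u => av fun x => ph τ (s * t) x u := by
  set c := s / ((s - 1) ^ 2 * t) with hc
  have hc0 : 0 ≤ c := by
    have hs' : 0 < s - 1 := by linarith
    rw [hc]; positivity
  have h1 : (av fun x => av fun u => dg τ x u) ≤ av fun u => av fun x =>
      (ph τ (s * t) x u + c * (dg τ x u - t) ^ 2 + (if eg τ u ≤ s * t then 0 else dg τ x u)) := by
    rw [av_comm]
    refine av_mono fun u => av_mono fun x => ?_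
    have := dg_le_ph_add hτ (s * t) x u
    have h2 := big_le (d := dg τ x u) hs ht
    linarith
  have h2 : ∀ u, (av fun x =>
      (ph τ (s * t) x u + c * (dg τ x u - t) ^ 2 + (if eg τ u ≤ s * t then 0 else dg τ x u))) =
      (av fun x => ph τ (s * t) x u) + c * (av fun x => (dg τ x u - t) ^ 2) +
        big (s * t) (eg τ u) := by
    intro u
    rw [av_add, av_add, av_mul_left]
    congr 1
    unfold big
    by_cases h : eg τ u ≤ s * t
    · simp only [h, if_true]; rw [av_const]
    · simp only [h, if_false]; rfl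
  rw [av_congr h2, av_add, av_add, av_mul_left] at h1
  have h3 : (av fun u => big (s * t) (eg τ u)) ≤ c * av fun x => av fun u => (dg τ x u - t) ^ 2 := by
    refine (av_mono fun u => big_le (d := eg τ u) hs ht).trans ?_
    rw [av_mul_left]
    exact mul_le_mul_of_nonneg_left (var_eg_le t) hc0
  have h4 : (av fun u => av fun x => (dg τ x u - t) ^ 2) =
      av fun x => av fun u => (dg τ x u - t) ^ 2 := av_comm _
  rw [h4] at h1
  linarith

theorem D3_le (hτ : Sym3 τ) {t : ℝ} (ht : 0 ≤ t) :
    (av fun x => av fun u => dg τ x u ^ 3) ≤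
      t ^ 3 + 3 * t ^ 2 * ((av fun x => av fun u => dg τ x u) - t) +
        (1 + 2 * t) * av fun x => av fun u => (dg τ x u - t) ^ 2 := by
  have h : ∀ x u, dg τ x u ^ 3 ≤ (t ^ 3 - 3 * t ^ 2 * t) + 3 * t ^ 2 * dg τ x u +
      (1 + 2 * t) * (dg τ x u - t) ^ 2 := by
    intro x u
    have h0 := dg_nonneg hτ x u
    have h1 := dg_le_one hτ x u
    nlinarith [mul_nonneg (sq_nonneg (dg τ x u - t)) (by linarith : (0 : ℝ) ≤ 1 - dg τ x u)]
  refine (av_mono fun x => av_mono fun u => h x u).trans (le_of_eq ?_)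
  rw [av_congr fun x => av_add _ _, av_add]
  rw [av_congr fun x => av_add _ _, av_add]
  rw [av_congr (f := fun x => av fun u => (1 + 2 * t) * (dg τ x u - t) ^ 2)
    fun x => av_mul_left _ _, av_mul_left]
  rw [av_congr (f := fun x => av fun u => 3 * t ^ 2 * dg τ x u) fun x => av_mul_left _ _,
    av_mul_left]
  rw [av_congr (f := fun x => av fun u : V => (t ^ 3 - 3 * t ^ 2 * t)) fun x => av_const _, av_const]
  ring

end single

section family

variable {α V : Type*} [Fintype α] [Nonempty α] [Fintype V] [Nonempty V] {τ : α → V → V → V → ℝ}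

/-- the density -/
noncomputable def dens (τ : α → V → V → V → ℝ) : ℝ :=
  av fun a => av fun x => av fun y => dg (τ a) x y

/-- the variance of the codegrees -/
noncomputable def vari (τ : α → V → V → V → ℝ) : ℝ :=
  av fun a => av fun x => av fun y => (dg (τ a) x y - dens τ) ^ 2

/-- the density of broken cherries -/
noncomputable def cher (τ : α → V → V → V → ℝ) : ℝ := av fun a => cherry (τ a)

theorem vari_nonneg : 0 ≤ vari τ := av_nonneg fun a => av_nonneg fun x => av_nonneg fun y =>
  sq_nonneg _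

theorem cher_nonneg (hτ : ∀ a, Sym3 (τ a)) : 0 ≤ cher τ := av_nonneg fun a => cherry_nonneg (hτ a)

theorem vari_eq : vari τ = (av fun a => av fun x => av fun y => dg (τ a) x y ^ 2) - dens τ ^ 2 := by
  unfold vari
  set t := dens τ with ht
  have h : ∀ a x, (av fun y => (dg (τ a) x y - t) ^ 2) =
      (av fun y => dg (τ a) x y ^ 2) - (2 * t) * (av fun y => dg (τ a) x y) + t ^ 2 := by
    intro a x
    rw [← av_mul_left, ← av_sub]
    have : (t ^ 2 : ℝ) = av fun _ : V => t ^ 2 := (av_const _).symm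
    rw [this, ← av_add]
    refine av_congr fun y => ?_
    ring
  rw [av_congr fun a => av_congr fun x => h a x]
  rw [av_congr fun a => av_add _ _, av_add]
  rw [av_congr fun a => av_sub _ _, av_sub]
  rw [av_congr (f := fun a => av fun x => 2 * t * av fun y => dg (τ a) x y) fun a => av_mul_left _ _,
    av_mul_left]
  rw [av_congr (f := fun a : α => av fun x : V => t ^ 2) fun a => av_const _, av_const]
  have : (av fun a => av fun x => av fun y => dg (τ a) x y) = t := rfl
  rw [this]
  ring

theorem avM_ge (hτ : ∀ a, Sym3 (τ a)) {s : ℝ} (hs : 1 < s) (ht : 0 < dens τ) :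
    dens τ ^ 2 - dens τ ^ 3 - (4 * s / (s - 1) ^ 2 + 1 + 2 * dens τ) * vari τ ≤
      av fun a => Mx (τ a) (s * dens τ) := by
  set t := dens τ with htd
  have hs' : 0 < s - 1 := by linarith
  set c := s / ((s - 1) ^ 2 * t) with hc
  have hc0 : 0 ≤ c := by rw [hc]; positivity
  have h1 := av_mono fun a => Mx_ge (hτ a) (s * t)
  rw [av_sub] at h1
  have h2 := sq_av_le fun a => av fun u => av fun x => ph (τ a) (s * t) x u
  have h3 := av_mono fun a => S1_ge (hτ a) hs ht
  rw [av_sub, av_mul_left] at h3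
  have e3 : (av fun a => av fun x => av fun u => dg (τ a) x u) = t := rfl
  have e4 : (av fun a => av fun x => av fun u => (dg (τ a) x u - t) ^ 2) = vari τ := rfl
  rw [e3, e4] at h3
  have h5 := av_mono fun a => D3_le (hτ a) ht.le
  rw [av_add, av_add, av_mul_left, av_mul_left, av_const, av_sub, av_const] at h5
  rw [e3, e4] at h5
  set S := av fun a => av fun u => av fun x => ph (τ a) (s * t) x u with hS
  have hv := vari_nonneg (τ := τ)
  have hS0 : 0 ≤ S := av_nonneg fun a => av_nonneg fun u => av_nonneg fun x => ph_nonneg (hτ a) _ _ _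
  have hct : c * t = s / (s - 1) ^ 2 := by
    rw [hc]; field_simp
  have h6 : t ^ 2 - 4 * (s / (s - 1) ^ 2) * vari τ ≤ S ^ 2 := by
    rw [← hct]
    by_cases h7 : 2 * c * vari τ ≤ t
    · have h8 : (t - 2 * c * vari τ) ^ 2 ≤ S ^ 2 := by
        apply pow_le_pow_left₀ (by linarith)
        linarith
      nlinarith [sq_nonneg (c * vari τ)]
    · push Not at h7
      have : t ^ 2 ≤ t * (2 * c * vari τ) := by nlinarith
      nlinarith [sq_nonneg S, mul_nonneg (mul_nonneg hc0 hv) ht.le]
  have e5 : 4 * s / (s - 1) ^ 2 = 4 * (s / (s - 1) ^ 2) := by ring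
  rw [e5]
  linarith

theorem avM_sq_le (hτ : ∀ a, Sym3 (τ a)) {K : ℝ} (hK : 0 ≤ K) :
    (av fun a => Mx (τ a) K) ^ 2 ≤ K * cher τ + K * cher τ + K ^ 2 * cher τ := by
  refine (sq_av_le _).trans ?_
  refine (av_mono fun a => config_le (hτ a) hK (T2_le (hτ a) hK)).trans (le_of_eq ?_)
  rw [av_add, av_add, av_mul_left, av_mul_left]
  rfl

theorem avM_sq_le' (hτ : ∀ a, Sym3 (τ a)) {K L : ℝ} (hK : 0 ≤ K) (hL : 1 < L)
    (ht : 0 < dens τ) :
    (av fun a => Mx (τ a) K) ^ 2 ≤ K * cher τ +
      K * ((L * dens τ) * cher τ + K * (L / ((L - 1) ^ 2 * dens τ) * vari τ)) +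
      K ^ 2 * cher τ := by
  refine (sq_av_le _).trans ?_
  have h1 : ∀ a, Mx (τ a) K ^ 2 ≤ K * cherry (τ a) +
      K * ((L * dens τ) * cherry (τ a) + K * av fun x => av fun y =>
        L / ((L - 1) ^ 2 * dens τ) * (dg (τ a) x y - dens τ) ^ 2) + K ^ 2 * cherry (τ a) := by
    intro a
    have h2 := config_le (hτ a) hK (T2_le' (hτ a) hK (L := L * dens τ) (by positivity))
    refine h2.trans ?_
    have h3 : (av fun x => av fun y => if dg (τ a) x y ≤ L * dens τ then 0 else dg (τ a) x y) ≤
        av fun x => av fun y => L / ((L - 1) ^ 2 * dens τ) * (dg (τ a) x y - dens τ) ^ 2 :=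
      av_mono fun x => av_mono fun y => big_le hL ht
    gcongr
  refine (av_mono h1).trans (le_of_eq ?_)
  rw [av_add, av_add, av_mul_left, av_mul_left, av_add, av_mul_left, av_mul_left, av_mul_left]
  rw [av_congr (f := fun a => av fun x => av fun y =>
        L / ((L - 1) ^ 2 * dens τ) * (dg (τ a) x y - dens τ) ^ 2)
    fun a => av_congr fun x => av_mul_left _ _]
  rw [av_congr (f := fun a => av fun x => L / ((L - 1) ^ 2 * dens τ) * av fun y =>
        (dg (τ a) x y - dens τ) ^ 2) fun a => av_mul_left _ _, av_mul_left]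
  rfl

/-- **Core inequality.** -/
theorem core (hτ : ∀ a, Sym3 (τ a)) (ht : 0 ≤ dens τ) (ht' : dens τ ≤ 7 / 20) :
    dens τ ^ 3 / 25 ≤ vari τ + cher τ := by
  have hv := vari_nonneg (τ := τ)
  have hc := cher_nonneg hτ
  rcases ht.eq_or_lt with h0 | h0
  · rw [← h0]; linarith [hv, hc, (by norm_num : (0 : ℝ) ^ 3 / 25 = 0)]
  set t := dens τ with htd
  by_contra hcon
  push Not at hcon
  have hv1 : vari τ < t ^ 3 / 25 := by linarith
  have hc1 : cher τ < t ^ 3 / 25 := by linarith
  have h1 := avM_ge hτ (s := 2) (by norm_num) h0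
  rw [← htd] at h1
  have h2 := avM_sq_le hτ (K := 2 * t) (by positivity)
  set M := av fun a => Mx (τ a) (2 * t) with hM
  have t3 : 0 < t ^ 3 := by positivity
  have h3 : t ^ 2 * (51 / 100) ≤ M := by
    have e : (4 * 2 / (2 - 1) ^ 2 + 1 + 2 * t : ℝ) = 9 + 2 * t := by norm_num
    rw [e] at h1
    have h4 : (9 + 2 * t) * vari τ ≤ 10 * (t ^ 3 / 25) := by
      have : 9 + 2 * t ≤ 10 := by linarith
      nlinarith
    have h5 : t ^ 3 ≤ 7 / 20 * t ^ 2 := by nlinarith [sq_nonneg t]
    nlinarith
  have h6 : (t ^ 2 * (51 / 100)) ^ 2 ≤ M ^ 2 := pow_le_pow_left₀ (by positivity) h3 2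
  have h7 : M ^ 2 ≤ (4 * t + 4 * t ^ 2) * cher τ := by nlinarith
  have h8 : (4 * t + 4 * t ^ 2) * cher τ ≤ (4 * t + 4 * t ^ 2) * (t ^ 3 / 25) := by
    apply mul_le_mul_of_nonneg_left hc1.le
    positivity
  have h9 : (4 * t + 4 * t ^ 2) * (t ^ 3 / 25) ≤ t ^ 4 * (216 / 1000) := by
    have : t ^ 5 ≤ 7 / 20 * t ^ 4 := by
      have h4 : 0 ≤ t ^ 4 := by positivity
      nlinarith
    nlinarith
  have h10 : (0 : ℝ) < t ^ 4 := by positivity
  nlinarith

/-- **Core inequality**, small densities. -/
theorem core' (hτ : ∀ a, Sym3 (τ a)) (ht : 0 ≤ dens τ) (ht' : dens τ ≤ 1 / 100000) :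
    9 / 10 * dens τ ^ 3 ≤ vari τ + cher τ := by
  have hv := vari_nonneg (τ := τ)
  have hc := cher_nonneg hτ
  rcases ht.eq_or_lt with h0 | h0
  · rw [← h0]; linarith [hv, hc, (by norm_num : 9 / 10 * (0 : ℝ) ^ 3 = 0)]
  have h1 := avM_ge hτ (s := 11 / 10) (by norm_num) h0
  have h2 := avM_sq_le' hτ (K := 11 / 10 * dens τ) (L := 100) (by positivity) (by norm_num) h0
  set t := dens τ with htd
  by_contra hcon
  push Not at hcon
  have hv1 : vari τ < 9 / 10 * t ^ 3 := by linarith
  set M := av fun a => Mx (τ a) (11 / 10 * t) with hM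
  have t2 : 0 < t ^ 2 := by positivity
  have t3 : 0 < t ^ 3 := by positivity
  have t4 : 0 < t ^ 4 := by positivity
  have s3 : t ^ 3 ≤ 1 / 100000 * t ^ 2 := by nlinarith
  have h3 : t ^ 2 * (996 / 1000) ≤ M := by
    have e : (4 * (11 / 10) / (11 / 10 - 1) ^ 2 + 1 + 2 * t : ℝ) = 441 + 2 * t := by norm_num
    rw [e] at h1
    have h4 : (441 + 2 * t) * vari τ ≤ 442 * (9 / 10 * t ^ 3) := by
      have : 441 + 2 * t ≤ 442 := by linarith
      nlinarith
    nlinarith
  have h6 : (t ^ 2 * (996 / 1000)) ^ 2 ≤ M ^ 2 := pow_le_pow_left₀ (by positivity) h3 2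
  have e2 : (11 / 10 * t) * (100 / ((100 - 1) ^ 2 * t) * vari τ) = 110 / 9801 * vari τ := by
    field_simp; ring
  rw [e2] at h2
  set g := cher τ with hg
  set v := vari τ with hvd
  have h7 : M ^ 2 ≤ t * (11 / 10 * g + 121 / 9801 * v + (111 + 21 / 100) * t * g) := by
    refine h2.trans (le_of_eq ?_)
    ring
  have h8 : (111 + 21 / 100) * t * g ≤ 112 / 100000 * g := by
    have : (111 + 21 / 100) * t ≤ 112 / 100000 := by linarith
    exact mul_le_mul_of_nonneg_right this hc
  have h9 : M ^ 2 ≤ t * (1102 / 1000 * (g + v)) := by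
    refine h7.trans (mul_le_mul_of_nonneg_left ?_ h0.le)
    linarith
  have h10 : t * (1102 / 1000 * (g + v)) < t * (1102 / 1000 * (9 / 10 * t ^ 3)) := by
    apply mul_lt_mul_of_pos_left _ h0
    linarith
  nlinarith

end family

end Pool.Agent.TH440.DC
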