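import Pool.Agent.TH440.DC.Chain
import Pool.Agent.TH440.DC.Core3

/-!
# The first step: sets of `r + 1` vertices
-/

set_option linter.unusedSectionVars false
set_option linter.unusedVariables false
set_option linter.unnecessarySeqFocus false

namespace Pool.Agent.TH440.DC

open Finset

variable {V : Type*} [Fintype V] [DecidableEq V] [Nonempty V] (F : Finset (Finset V))

/-- the embedding of the coordinates that skips the extra coordinate `k` -/
def skip (s : ℕ) {m : ℕ} (k : Fin (m + 1)) : Fin s ⊕ Fin m ↪ Fin s ⊕ Fin (m + 1) :=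
  ⟨Sum.map id k.succAbove, Function.Injective.sumMap Function.injective_id
        (Fin.succAbove_right_injective)⟩

theorem map_skip (s : ℕ) {m : ℕ} (k : Fin (m + 1)) :
    (univ : Finset (Fin s ⊕ Fin m)).map (skip s k) = {Sum.inr k}ᶜ := by
  ext z
  simp only [mem_map, mem_univ, true_and, mem_compl, mem_singleton]
  constructor
  · rintro ⟨w, rfl⟩
    rcases w with w | w
    · simp [skip]
    · simp [skip, Fin.succAbove_ne]
  · intro hz
    rcases z with z | z
    · exact ⟨Sum.inl z, rfl⟩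
    · have hz' : z ≠ k := fun h => hz (by rw [h])
      obtain ⟨w, hw⟩ := Fin.exists_succAbove_eq hz'
      exact ⟨Sum.inr w, by simp [skip, hw]⟩

theorem elim_skip {s m : ℕ} (A : Fin s → V) (p : Fin (m + 1) → V) (k : Fin (m + 1)) :
    (Sum.elim A p : Fin s ⊕ Fin (m + 1) → V) ∘ skip s k = Sum.elim A (p ∘ k.succAbove) := by
  funext z
  rcases z with z | z <;> rfl

theorem mi_skip {s m : ℕ} (A : Fin s → V) (p : Fin (m + 1) → V) (k : Fin (m + 1)) :
    mi F (Sum.elim A p : Fin s ⊕ Fin (m + 1) → V) {Sum.inr k}ᶜ =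
      mi F (Sum.elim A (p ∘ k.succAbove) : Fin s ⊕ Fin m → V) univ := by
  rw [← elim_skip, mi_comp, map_skip]

/-- the links of the `s`-tuples -/
noncomputable def tau (s : ℕ) (A : Fin s → V) (x y z : V) : ℝ :=
  mi F (Sum.elim A ![x, y, z] : Fin s ⊕ Fin 3 → V) univ

theorem mi_perm {ι κ : Type*} [Fintype ι] [DecidableEq ι] [Fintype κ] [DecidableEq κ] (e : κ ≃ ι)
    (S : ι → V) : mi F (S ∘ e) univ = mi F S univ := by
  have h := mi_comp F e.toEmbedding S univ
  rw [Finset.map_univ_equiv] at h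
  exact h

theorem tau_sym (s : ℕ) (A : Fin s → V) : Sym3 (tau F s A) where
  bit := fun x y z => mi_bit _ _ _
  s12 := by
    intro x y z
    unfold tau
    rw [← mi_perm F (Equiv.sumCongr (Equiv.refl (Fin s)) (Equiv.swap (0 : Fin 3) 1))]
    congr 1
    funext w
    rcases w with w | w
    · rfl
    · fin_cases w <;> simp [Equiv.swap_apply_def]
  s23 := by
    intro x y z
    unfold tau
    rw [← mi_perm F (Equiv.sumCongr (Equiv.refl (Fin s)) (Equiv.swap (1 : Fin 3) 2))]
    congr 1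
    funext w
    rcases w with w | w
    · rfl
    · fin_cases w <;> simp [Equiv.swap_apply_def]

/-- density of the member tuples -/
noncomputable def td (r : ℕ) : ℝ := av fun S : Fin r → V => mi F S univ

theorem td_nonneg (r : ℕ) : 0 ≤ td F r := av_nonneg fun S => mi_nonneg _ _ _

theorem td_le_one (r : ℕ) : td F r ≤ 1 := av_le_const fun S => mi_le_one _ _ _

theorem dens_tau (s : ℕ) : dens (tau F s) = td F (s + 3) := by
  have h : (univ : Finset (Fin s ⊕ Fin 3)).card = s + 3 := by rw [card_univ]; simp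
  unfold td
  rw [← av_mi F h, av_sumArrow]
  unfold dens
  refine av_congr fun A => ?_
  rw [av_fin_three]
  rfl

section moments

variable {ι : Type*} [Fintype ι] [DecidableEq ι]

theorem mi_reindex {s m : ℕ} (σ : Fin s ⊕ Fin m ≃ ι) (S : Fin s ⊕ Fin m → V) (i : Fin m) :
    mi F (S ∘ σ.symm) {σ (Sum.inr i)}ᶜ = mi F S {Sum.inr i}ᶜ := by
  have h := mi_comp F σ.symm.toEmbedding S {σ (Sum.inr i)}ᶜ
  rw [compl_map] at h
  exact h

theorem av_two {s : ℕ} (hj : Fintype.card ι = s + 4) {i l : ι} (hil : i ≠ l) :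
    av (fun S : ι → V => mi F S {i}ᶜ * mi F S {l}ᶜ) =
      av fun A : Fin s → V => av fun x => av fun y => dg (tau F s A) x y ^ 2 := by
  -- choose a fourth-point embedding: coordinates 3, 2 are `i`, `l`
  classical
  have hcard : 1 < (({i, l} : Finset ι)ᶜ).card := by
    rw [card_compl, card_pair hil, hj]; omega
  obtain ⟨a, ha, b, hb, hab⟩ := Finset.one_lt_card.mp hcard
  simp only [mem_compl, mem_insert, mem_singleton, not_or] at ha hb
  let e : Fin 4 ↪ ι := ⟨![a, b, l, i], by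
    intro c d hcd
    fin_cases c <;> fin_cases d <;> simp_all⟩
  obtain ⟨σ, hσ⟩ := exists_sum_equiv (s := s) (m := 4) hj e
  have e3 : σ (Sum.inr 3) = i := hσ 3
  have e2 : σ (Sum.inr 2) = l := hσ 2
  rw [av_reindex σ]
  have h1 : ∀ S : Fin s ⊕ Fin 4 → V, mi F (S ∘ σ.symm) {i}ᶜ * mi F (S ∘ σ.symm) {l}ᶜ =
      mi F S {Sum.inr 3}ᶜ * mi F S {Sum.inr 2}ᶜ := by
    intro S
    rw [← e3, ← e2, mi_reindex, mi_reindex]
  rw [av_congr h1, av_sumArrow]
  refine av_congr fun A => ?_
  rw [av_fin_four]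
  refine av_congr fun x => av_congr fun y => ?_
  rw [sq, dg, av_mul_av]
  refine av_congr fun u => av_congr fun u' => ?_
  rw [mi_skip, mi_skip]
  unfold tau
  congr 2
  · congr 1
    funext w; fin_cases w <;> rfl
  · congr 1
    funext w; fin_cases w <;> rfl

theorem av_three {s : ℕ} (hj : Fintype.card ι = s + 4) {i l h : ι} (hil : i ≠ l) (hih : i ≠ h)
    (hlh : l ≠ h) :
    av (fun S : ι → V => mi F S {i}ᶜ * mi F S {l}ᶜ * (1 - mi F S {h}ᶜ)) = cher (tau F s) := by
  classical
  have hcard : 0 < (({i, l, h} : Finset ι)ᶜ).card := by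
    have : ({i, l, h} : Finset ι).card ≤ 3 := Finset.card_le_three
    rw [card_compl, hj]; omega
  obtain ⟨a, ha⟩ := Finset.card_pos.mp hcard
  simp only [mem_compl, mem_insert, mem_singleton, not_or] at ha
  let e : Fin 4 ↪ ι := ⟨![a, h, l, i], by
    intro c d hcd
    fin_cases c <;> fin_cases d <;> simp_all⟩
  obtain ⟨σ, hσ⟩ := exists_sum_equiv (s := s) (m := 4) hj e
  have e3 : σ (Sum.inr 3) = i := hσ 3
  have e2 : σ (Sum.inr 2) = l := hσ 2
  have e1 : σ (Sum.inr 1) = h := hσ 1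
  rw [av_reindex σ]
  have h1 : ∀ S : Fin s ⊕ Fin 4 → V, mi F (S ∘ σ.symm) {i}ᶜ * mi F (S ∘ σ.symm) {l}ᶜ *
      (1 - mi F (S ∘ σ.symm) {h}ᶜ) =
      mi F S {Sum.inr 3}ᶜ * mi F S {Sum.inr 2}ᶜ * (1 - mi F S {Sum.inr 1}ᶜ) := by
    intro S
    rw [← e3, ← e2, ← e1, mi_reindex, mi_reindex, mi_reindex]
  rw [av_congr h1, av_sumArrow]
  unfold cher cherry
  refine av_congr fun A => ?_
  rw [av_fin_four]
  refine av_congr fun x => av_congr fun y => av_congr fun u => av_congr fun u' => ?_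
  rw [mi_skip, mi_skip, mi_skip]
  unfold tau
  congr 3
  · congr 1
    funext w; fin_cases w <;> rfl
  · congr 1
    funext w; fin_cases w <;> rfl
  · congr 1
    funext w; fin_cases w <;> rfl

/-- number of member `r`-sets of coordinates, `|ι| = r + 1` -/
noncomputable def kk (S : ι → V) : ℝ := ∑ i : ι, mi F S {i}ᶜ

theorem kk_sq (S : ι → V) : kk F S * (kk F S - 1) =
    ∑ i : ι, ∑ l ∈ univ.erase i, mi F S {i}ᶜ * mi F S {l}ᶜ := by
  have h1 : kk F S * kk F S = ∑ i : ι, ∑ l : ι, mi F S {i}ᶜ * mi F S {l}ᶜ := by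
    unfold kk
    rw [Finset.sum_mul_sum]
  have h2 : ∀ i : ι, ∑ l : ι, mi F S {i}ᶜ * mi F S {l}ᶜ =
      (∑ l ∈ univ.erase i, mi F S {i}ᶜ * mi F S {l}ᶜ) + mi F S {i}ᶜ := by
    intro i
    rw [← Finset.sum_erase_add _ _ (mem_univ i)]
    congr 1
    rcases mi_bit F S {i}ᶜ with h | h <;> rw [h] <;> norm_num
  rw [Finset.sum_congr rfl fun i _ => h2 i, Finset.sum_add_distrib] at h1
  have h3 : kk F S = ∑ i : ι, mi F S {i}ᶜ := rfl
  rw [← h3] at h1
  linarith

theorem kk_cube {N : ℕ} (hN : Fintype.card ι = N) (S : ι → V) :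
    kk F S * (kk F S - 1) * ((N : ℝ) - kk F S) =
    ∑ i : ι, ∑ l ∈ univ.erase i, ∑ h ∈ (univ.erase i).erase l,
      mi F S {i}ᶜ * mi F S {l}ᶜ * (1 - mi F S {h}ᶜ) := by
  have h1 : (N : ℝ) - kk F S = ∑ h : ι, (1 - mi F S {h}ᶜ) := by
    rw [Finset.sum_sub_distrib, Finset.sum_const, card_univ, hN, nsmul_eq_mul, mul_one]
    rfl
  rw [kk_sq, h1, Finset.sum_mul]
  refine Finset.sum_congr rfl fun i _ => ?_
  rw [Finset.sum_mul]
  refine Finset.sum_congr rfl fun l hl => ?_
  rw [Finset.mul_sum]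
  have hl' : l ∈ univ.erase i := hl
  rw [← Finset.sum_erase_add _ _ (mem_univ i), ← Finset.sum_erase_add _ _ hl']
  have z1 : mi F S {i}ᶜ * mi F S {l}ᶜ * (1 - mi F S {i}ᶜ) = 0 := by
    rcases mi_bit F S {i}ᶜ with h | h <;> rw [h] <;> norm_num
  have z2 : mi F S {i}ᶜ * mi F S {l}ᶜ * (1 - mi F S {l}ᶜ) = 0 := by
    rcases mi_bit F S {l}ᶜ with h | h <;> rw [h] <;> norm_num
  rw [z1, z2, add_zero, add_zero]

theorem av_kk {r : ℕ} (hj : Fintype.card ι = r + 1) :
    av (fun S : ι → V => kk F S) = ((r : ℝ) + 1) * td F r := by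
  unfold kk
  rw [av_finset_sum]
  have : ∀ i ∈ (univ : Finset ι), av (fun S : ι → V => mi F S {i}ᶜ) = td F r := by
    intro i _
    apply av_mi
    rw [card_compl, card_singleton, hj]
    omega
  rw [Finset.sum_congr rfl this, Finset.sum_const, card_univ, hj, nsmul_eq_mul]
  push_cast
  ring

theorem av_kk_sq {s : ℕ} (hj : Fintype.card ι = s + 4) :
    av (fun S : ι → V => kk F S * (kk F S - 1)) = ((s : ℝ) + 4) * ((s : ℝ) + 3) *
      av fun A : Fin s → V => av fun x => av fun y => dg (tau F s A) x y ^ 2 := by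
  rw [av_congr fun S => kk_sq F S, av_finset_sum]
  have : ∀ i ∈ (univ : Finset ι), av (fun S : ι → V => ∑ l ∈ univ.erase i,
      mi F S {i}ᶜ * mi F S {l}ᶜ) = ((s : ℝ) + 3) *
      av fun A : Fin s → V => av fun x => av fun y => dg (tau F s A) x y ^ 2 := by
    intro i _
    rw [av_finset_sum]
    have h2 : ∀ l ∈ univ.erase i, av (fun S : ι → V => mi F S {i}ᶜ * mi F S {l}ᶜ) =
        av fun A : Fin s → V => av fun x => av fun y => dg (tau F s A) x y ^ 2 := by
      intro l hl
      exact av_two F hj (Finset.ne_of_mem_erase hl).symm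
    rw [Finset.sum_congr rfl h2, Finset.sum_const, card_erase_of_mem (mem_univ i), card_univ, hj,
      nsmul_eq_mul]
    push_cast
    ring
  rw [Finset.sum_congr rfl this, Finset.sum_const, card_univ, hj, nsmul_eq_mul]
  push_cast
  ring

theorem av_kk_cube {s : ℕ} (hj : Fintype.card ι = s + 4) :
    av (fun S : ι → V => kk F S * (kk F S - 1) * (((s + 4 : ℕ) : ℝ) - kk F S)) =
      ((s : ℝ) + 4) * ((s : ℝ) + 3) * ((s : ℝ) + 2) * cher (tau F s) := by
  rw [av_congr fun S => kk_cube F hj S, av_finset_sum]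
  have : ∀ i ∈ (univ : Finset ι), av (fun S : ι → V => ∑ l ∈ univ.erase i,
      ∑ h ∈ (univ.erase i).erase l, mi F S {i}ᶜ * mi F S {l}ᶜ * (1 - mi F S {h}ᶜ)) =
      ((s : ℝ) + 3) * ((s : ℝ) + 2) * cher (tau F s) := by
    intro i _
    rw [av_finset_sum]
    have h2 : ∀ l ∈ univ.erase i, av (fun S : ι → V => ∑ h ∈ (univ.erase i).erase l,
        mi F S {i}ᶜ * mi F S {l}ᶜ * (1 - mi F S {h}ᶜ)) = ((s : ℝ) + 2) * cher (tau F s) := by
      intro l hl
      rw [av_finset_sum]
      have h3 : ∀ h ∈ (univ.erase i).erase l,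
          av (fun S : ι → V => mi F S {i}ᶜ * mi F S {l}ᶜ * (1 - mi F S {h}ᶜ)) =
            cher (tau F s) := by
        intro h hh
        have a1 := Finset.ne_of_mem_erase hh
        have a2 := Finset.ne_of_mem_erase (Finset.mem_of_mem_erase hh)
        exact av_three F hj (Finset.ne_of_mem_erase hl).symm a2.symm a1.symm
      rw [Finset.sum_congr rfl h3, Finset.sum_const, card_erase_of_mem hl,
        card_erase_of_mem (mem_univ i), card_univ, hj, nsmul_eq_mul]
      push_cast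
      ring
    rw [Finset.sum_congr rfl h2, Finset.sum_const, card_erase_of_mem (mem_univ i), card_univ, hj,
      nsmul_eq_mul]
    push_cast
    ring
  rw [Finset.sum_congr rfl this, Finset.sum_const, card_univ, hj, nsmul_eq_mul]
  push_cast
  ring

/-- a set of `r` among `r + 1` coordinates is the complement of one coordinate -/
theorem exists_compl {r : ℕ} (hj : Fintype.card ι = r + 1) {R : Finset ι} (hR : R.card = r) :
    ∃ i, R = {i}ᶜ := by
  have h : Rᶜ.card = 1 := by rw [card_compl, hj, hR]; omega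
  obtain ⟨i, hi⟩ := Finset.card_eq_one.mp h
  exact ⟨i, by rw [← hi, compl_compl]⟩

theorem kk_pointwise {r : ℕ} (hr : 1 ≤ r) (hj : Fintype.card ι = r + 1) (S : ι → V) :
    ((r : ℝ) + 1) * (1 - ci F r S univ) + kk F S * (kk F S - 1) * (((r + 1 : ℕ) : ℝ) - kk F S) / r ≤
      ((r : ℝ) + 1) * kk F S - kk F S * (kk F S - 1) := by
  classical
  have hk : kk F S = ((univ.filter fun i => Mem F S {i}ᶜ).card : ℝ) := by
    unfold kk mi
    rw [Finset.sum_ite, Finset.sum_const, Finset.sum_const_zero, add_zero, nsmul_eq_mul, mul_one]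
  set c := (univ.filter fun i => Mem F S {i}ᶜ).card with hc
  have hle : c ≤ r + 1 := by rw [← hj]; exact card_le_univ _
  have hr0 : (0 : ℝ) < r := by exact_mod_cast hr
  rcases ci_bit F r S univ with h | h
  · -- not a clique: c ≥ 1
    have h1 : ¬ Cl F r S univ := by
      intro hh
      unfold ci at h
      rw [if_pos hh] at h
      norm_num at h
    unfold Cl at h1
    push Not at h1
    obtain ⟨R, -, hR, hM⟩ := h1
    obtain ⟨i, rfl⟩ := exists_compl hj hR
    have hc1 : 1 ≤ c := Finset.card_pos.mpr ⟨i, by rw [mem_filter]; exact ⟨mem_univ _, hM⟩⟩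
    rw [h, hk]
    have h2 : (1 : ℝ) ≤ c := by exact_mod_cast hc1
    have key : (c : ℝ) * (c - 1) * (((r + 1 : ℕ) : ℝ) - c) / r ≤ ((c : ℝ) - 1) * (((r : ℝ) + 1) - c) := by
      rw [div_le_iff₀ hr0]
      push_cast
      rcases Nat.lt_or_ge c (r + 1) with h3 | h3
      · have h4 : (c : ℝ) ≤ r := by exact_mod_cast Nat.lt_succ_iff.mp h3
        have h5 : 0 ≤ ((c : ℝ) - 1) * (((r : ℝ) + 1) - c) :=
          mul_nonneg (by linarith) (by linarith)
        nlinarith
      · have h4 : c = r + 1 := le_antisymm hle h3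
        rw [h4]; push_cast; ring_nf; exact le_refl _
    linarith
  · have h1 : Cl F r S univ := by
      by_contra hh
      unfold ci at h
      rw [if_neg hh] at h
      norm_num at h
    have hc0 : c = 0 := by
      rw [hc, card_eq_zero, filter_eq_empty_iff]
      intro i _ hM
      exact h1 {i}ᶜ (subset_univ _) (by rw [card_compl, card_singleton, hj]; omega) hM
    rw [h, hk, hc0]
    norm_num

end moments

/-- the improved first step -/
theorem first_step (s : ℕ) :
    1 - ((s : ℝ) + 4) * td F (s + 3) + ((s : ℝ) + 3) * td F (s + 3) ^ 2 +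
      ((s : ℝ) + 3) * vari (tau F s) + ((s : ℝ) + 2) * cher (tau F s) ≤ pp F (s + 3) (s + 4) := by
  have hc : Fintype.card (Fin (s + 4)) = s + 4 := Fintype.card_fin _
  have h1 : av (fun S : Fin (s + 4) → V => (((s + 3 : ℕ) : ℝ) + 1) * (1 - ci F (s + 3) S univ) +
      kk F S * (kk F S - 1) * (((s + 3 + 1 : ℕ) : ℝ) - kk F S) / ((s + 3 : ℕ) : ℝ)) ≤
      av fun S : Fin (s + 4) → V => (((s + 3 : ℕ) : ℝ) + 1) * kk F S - kk F S * (kk F S - 1) :=
    av_mono fun S => kk_pointwise F (r := s + 3) (by omega) hc S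
  have e2 : ∀ S : Fin (s + 4) → V, kk F S * (kk F S - 1) * (((s + 3 + 1 : ℕ) : ℝ) - kk F S) /
      ((s + 3 : ℕ) : ℝ) = (1 / ((s + 3 : ℕ) : ℝ)) * (kk F S * (kk F S - 1) *
        (((s + 4 : ℕ) : ℝ) - kk F S)) := by
    intro S; ring
  rw [av_add, av_mul_left, av_sub, av_const, av_congr e2, av_mul_left, av_sub, av_mul_left,
    av_kk_cube F hc, av_kk F (r := s + 3) hc, av_kk_sq F hc] at h1
  have h3 : av (fun S : Fin (s + 4) → V => ci F (s + 3) S univ) = pp F (s + 3) (s + 4) := rfl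
  rw [h3] at h1
  have h4 := vari_eq (τ := tau F s)
  rw [dens_tau] at h4
  set W := av fun A : Fin s → V => av fun x => av fun y => dg (tau F s A) x y ^ 2 with hW
  push_cast at h1
  have hs : (0 : ℝ) < (s : ℝ) + 3 := by positivity
  have h5 : 1 / ((s : ℝ) + 3) * (((s : ℝ) + 4) * ((s : ℝ) + 3) * ((s : ℝ) + 2) * cher (tau F s)) =
      ((s : ℝ) + 4) * (((s : ℝ) + 2) * cher (tau F s)) := by
    field_simp
  rw [h5] at h1
  have hs4 : (0 : ℝ) < (s : ℝ) + 4 := by positivity
  have h6 : ((s : ℝ) + 4) * ((1 - pp F (s + 3) (s + 4)) + ((s : ℝ) + 2) * cher (tau F s)) ≤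
      ((s : ℝ) + 4) * (((s : ℝ) + 4) * td F (s + 3) - ((s : ℝ) + 3) * W) := by
    nlinarith
  have h7 := le_of_mul_le_mul_left h6 hs4
  nlinarith

theorem pp_self (r : ℕ) : pp F r r = 1 - td F r := by
  have h : ∀ S : Fin r → V, ci F r S univ = 1 - mi F S univ := by
    intro S
    unfold ci mi
    by_cases h : Mem F S univ
    · rw [if_pos h, if_neg]
      · norm_num
      · intro hh
        exact hh univ (Subset.refl _) (by rw [card_univ, Fintype.card_fin]) h
    · rw [if_neg h, if_pos]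
      · norm_num
      · intro R hR hr hM
        have : R = univ := by
          apply Finset.eq_univ_of_card
          rw [hr, Fintype.card_fin]
        rw [this] at hM
        exact h hM
  unfold pp td
  rw [av_congr h, av_sub, av_const]

/-- the improved bound for tuples -/
theorem tuple_bound {s k : ℕ} (hk : s + 3 < k) (hcov : pp F (s + 3) k = 0)
    (ht : td F (s + 3) < 1) :
    1 ≤ ((k - 1).choose (s + 2) : ℝ) *
      (td F (s + 3) - ((s : ℝ) + 2) / ((s : ℝ) + 3) * (vari (tau F s) + cher (tau F s))) := by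
  have h1 := first_step F s
  have h2 := pp_self F (s + 3)
  set t := td F (s + 3) with htd
  have hv := vari_nonneg (τ := tau F s)
  have hc := cher_nonneg (τ := tau F s) (tau_sym F s)
  set v := vari (tau F s)
  set c := cher (tau F s)
  have ht0 : 0 ≤ t := td_nonneg F _
  have hs3 : (0 : ℝ) < (s : ℝ) + 3 := by positivity
  set x := t - ((s : ℝ) + 2) / ((s : ℝ) + 3) * (v + c) with hx
  have e1 : ((s : ℝ) + 3) * x = ((s : ℝ) + 3) * t - ((s : ℝ) + 2) * (v + c) := by
    rw [hx]; field_simp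
  have h0 : pp F (s + 3) (s + 3) - pp F (s + 3) (s + 3 + 1) ≤
      ((s + 3 : ℕ) : ℝ) * x * pp F (s + 3) (s + 3) := by
    rw [h2]
    push_cast
    rw [e1]
    have hs0 : (0 : ℝ) ≤ s := Nat.cast_nonneg s
    have a1 : 0 ≤ ((s : ℝ) + 2) * (v + c) * t := by positivity
    nlinarith
  have hx0 : 0 ≤ x := by
    have a1 : 0 ≤ ((s + 3 : ℕ) : ℝ) * x * pp F (s + 3) (s + 3) :=
      le_trans (by linarith [pp_succ_le F (s + 3) (s + 3)]) h0
    rw [h2] at a1
    by_contra hcon
    push Not at hcon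
    have : ((s + 3 : ℕ) : ℝ) * x * (1 - t) < 0 := by
      apply mul_neg_of_neg_of_pos _ (by linarith)
      apply mul_neg_of_pos_of_neg _ hcon
      push_cast; exact hs3
    linarith
  have hp : 0 < pp F (s + 3) (s + 3) := by rw [h2]; linarith
  have := chain_final F (s + 3) (x := x) (k := k) (by omega) hk h0 hx0 hp hcov
  simpa using this

end Pool.Agent.TH440.DC
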