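import Pool.Agent.TH440.DC.First
import Pool.Agent.H120R2.CliqueDefs

/-!
# Lower bound for covering families of `r`-sets
-/

set_option linter.unusedSectionVars false
set_option linter.unusedVariables false
set_option linter.unnecessarySeqFocus false

namespace Pool.Agent.TH440.DC

open Finset Filter Topology

section cover

variable {V : Type*} [Fintype V] [DecidableEq V] [Nonempty V] (F : Finset (Finset V))

/-- every `k`-set contains a member of `F` of size `r` -/
def Covers (r k : ℕ) : Prop := ∀ K : Finset V, K.card = k → ∃ T ∈ F, T.card = r ∧ T ⊆ K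

theorem pp_eq_zero {r k : ℕ} (hr : 2 ≤ r) (hk : r ≤ k) (hF : Covers F r k) : pp F r k = 0 := by
  classical
  have h : ∀ S : Fin k → V, ci F r S univ = 0 := by
    intro S
    unfold ci
    rw [if_neg]
    intro hh
    by_cases hS : Function.Injective S
    · obtain ⟨T, hT, hTr, hTK⟩ := hF (univ.image S) (by
        rw [card_image_of_injective _ hS, card_univ, Fintype.card_fin])
      -- the preimage of T
      set R := univ.filter (fun i => S i ∈ T) with hR
      have h1 : R.image S = T := by
        ext x
        simp only [mem_image, hR, mem_filter, mem_univ, true_and]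
        constructor
        · rintro ⟨i, hi, rfl⟩; exact hi
        · intro hx
          have := hTK hx
          rw [mem_image] at this
          obtain ⟨i, -, rfl⟩ := this
          exact ⟨i, hx, rfl⟩
      have h2 : R.card = r := by
        rw [← hTr, ← h1, card_image_of_injective _ hS]
      exact hh R (subset_univ _) h2 (Or.inr (by rw [h1]; exact hT))
    · unfold Function.Injective at hS
      push Not at hS
      obtain ⟨a, b, hab, hne⟩ := hS
      have h1 : ({a, b} : Finset (Fin k)).card ≤ r := by rw [card_pair hne]; exact hr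
      obtain ⟨R, hR1, -, hR2⟩ := Finset.exists_subsuperset_card_eq (subset_univ ({a, b} : Finset (Fin k)))
        h1 (by rw [card_univ, Fintype.card_fin]; exact hk)
      refine hh R (subset_univ _) hR2 (Or.inl ?_)
      intro hinj
      exact hne (hinj (by exact_mod_cast hR1 (by simp)) (by exact_mod_cast hR1 (by simp)) hab)
  unfold pp
  rw [av_congr h, av_const]

/-- the number of injective tuples whose image is `T` -/
theorem card_inj_image (r : ℕ) (T : Finset V) :
    (univ.filter fun S : Fin r → V => Function.Injective S ∧ univ.image S = T).card ≤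
      r.factorial := by
  classical
  by_cases hT : T.card = r
  · have h1 : (univ.filter fun S : Fin r → V => Function.Injective S ∧ univ.image S = T).card ≤
        Fintype.card (Fin r ↪ T) := by
      rw [← card_univ]
      refine Finset.card_le_card_of_injOn
        (f := fun S => if h : Function.Injective S ∧ univ.image S = T then
          (⟨fun i => ⟨S i, by rw [← h.2]; exact mem_image_of_mem _ (mem_univ _)⟩, fun a b hab => by
            have := congrArg Subtype.val hab
            exact h.1 this⟩ : Fin r ↪ T) else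
          (by
            have e : Fin r ≃ T := (Fintype.equivFinOfCardEq (by rw [Fintype.card_coe, hT])).symm
            exact e.toEmbedding)) ?_ ?_
      · intro S _; simp
      · intro S hS S' hS' h
        rw [Finset.mem_coe, mem_filter] at hS hS'
        simp only [dif_pos hS.2, dif_pos hS'.2] at h
        funext i
        have h5 := congrArg (fun e : Fin r ↪ T => ((e i : T) : V)) h
        exact h5
    refine h1.trans ?_
    rw [Fintype.card_embedding_eq, Fintype.card_coe, Fintype.card_fin, hT, Nat.descFactorial_self]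
  · have : (univ.filter fun S : Fin r → V => Function.Injective S ∧ univ.image S = T) = ∅ := by
      rw [filter_eq_empty_iff]
      rintro S - ⟨h1, h2⟩
      apply hT
      rw [← h2, card_image_of_injective _ h1, card_univ, Fintype.card_fin]
    rw [this]; simp

theorem td_le (r : ℕ) : td F r * (Fintype.card V : ℝ) ^ r ≤
    (r.factorial : ℝ) * F.card + ((Fintype.card V : ℝ) ^ r - ((Fintype.card V).descFactorial r : ℝ)) := by
  classical
  have hn : (0 : ℝ) < (Fintype.card V : ℝ) := card_pos'
  have h1 : td F r * (Fintype.card V : ℝ) ^ r = ∑ S : Fin r → V, mi F S univ := by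
    unfold td av
    rw [Fintype.card_fun, Fintype.card_fin]
    push_cast
    field_simp
  have h2 : ∑ S : Fin r → V, mi F S univ =
      ((univ.filter fun S : Fin r → V => Mem F S univ).card : ℝ) := by
    unfold mi
    rw [Finset.sum_ite, Finset.sum_const, Finset.sum_const_zero, add_zero, nsmul_eq_mul, mul_one]
  have h3 : (univ.filter fun S : Fin r → V => Mem F S univ) ⊆
      (univ.filter fun S : Fin r → V => ¬ Function.Injective S) ∪
        F.biUnion fun T => univ.filter fun S : Fin r → V => Function.Injective S ∧ univ.image S = T := by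
    intro S hS
    rw [mem_filter] at hS
    rw [mem_union, mem_filter, mem_biUnion]
    by_cases hi : Function.Injective S
    · right
      rcases hS.2 with h | h
      · exact absurd (by rw [coe_univ]; exact Set.injOn_univ.mpr hi) h
      · exact ⟨_, h, by rw [mem_filter]; exact ⟨mem_univ _, hi, rfl⟩⟩
    · left; exact ⟨mem_univ _, hi⟩
  have h4 := card_le_card h3
  have h5 := h4.trans (card_union_le _ _)
  have h6 : (F.biUnion fun T => univ.filter fun S : Fin r → V =>
      Function.Injective S ∧ univ.image S = T).card ≤ F.card * r.factorial :=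
    Finset.card_biUnion_le_card_mul _ _ _ fun T _ => card_inj_image r T
  have h7 : (univ.filter fun S : Fin r → V => ¬ Function.Injective S).card +
      (Fintype.card V).descFactorial r = (Fintype.card V) ^ r := by
    have a1 := Finset.card_filter_add_card_filter_not (s := (univ : Finset (Fin r → V)))
      (fun S => Function.Injective S)
    have a2 : (univ.filter fun S : Fin r → V => Function.Injective S).card =
        (Fintype.card V).descFactorial r := by
      have := Fintype.card_embedding_eq (α := Fin r) (β := V)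
      rw [Fintype.card_fin] at this
      rw [← this, ← Fintype.card_subtype]
      exact Fintype.card_congr (Equiv.subtypeInjectiveEquivEmbedding _ _)
    rw [a2, card_univ, Fintype.card_fun, Fintype.card_fin] at a1
    omega
  rw [h1, h2]
  have h8 : ((univ.filter fun S : Fin r → V => ¬ Function.Injective S).card : ℝ) =
      (Fintype.card V : ℝ) ^ r - ((Fintype.card V).descFactorial r : ℝ) := by
    have : (((univ.filter fun S : Fin r → V => ¬ Function.Injective S).card +
      (Fintype.card V).descFactorial r : ℕ) : ℝ) = (((Fintype.card V) ^ r : ℕ) : ℝ) := by rw [h7]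
    push_cast at this
    linarith
  calc ((univ.filter fun S : Fin r → V => Mem F S univ).card : ℝ)
      ≤ (((univ.filter fun S : Fin r → V => ¬ Function.Injective S).card +
        (F.biUnion fun T => univ.filter fun S : Fin r → V =>
          Function.Injective S ∧ univ.image S = T).card : ℕ) : ℝ) := by exact_mod_cast h5
    _ ≤ (((univ.filter fun S : Fin r → V => ¬ Function.Injective S).card +
        F.card * r.factorial : ℕ) : ℝ) := by
        exact_mod_cast Nat.add_le_add_left h6 _
    _ = _ := by
        push_cast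
        rw [h8]; ring

end cover

/-- de Caen's constant -/
noncomputable def DD (r k : ℕ) : ℝ := 1 / ((k - 1).choose (r - 1) : ℝ)

theorem DD_facts {r k : ℕ} (hr : 3 ≤ r) (hk : r < k) : 0 < DD r k ∧ DD r k ≤ 1 / 3 ∧
    (3 : ℝ) ≤ ((k - 1).choose (r - 1) : ℝ) := by
  have h1 : 3 ≤ (k - 1).choose (r - 1) := by
    have h2 : r.choose (r - 1) ≤ (k - 1).choose (r - 1) :=
      Nat.choose_le_choose (r - 1) (by omega)
    have h3 : r.choose (r - 1) = r := by
      obtain ⟨s, rfl⟩ : ∃ s, r = s + 1 := ⟨r - 1, by omega⟩
      simp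
    omega
  have h2 : (3 : ℝ) ≤ ((k - 1).choose (r - 1) : ℝ) := by exact_mod_cast h1
  unfold DD
  refine ⟨by positivity, ?_, h2⟩
  exact one_div_le_one_div_of_le (by norm_num) h2

/-- lower bound for the density of member tuples -/
theorem td_ge {V : Type*} [Fintype V] [DecidableEq V] [Nonempty V] (F : Finset (Finset V))
    {r k : ℕ} (hr : 3 ≤ r) (hk : r < k) (hF : Covers F r k) :
    DD r k + DD r k ^ 3 / 40 ≤ td F r ∧
    (200000 ≤ (k - 1).choose (r - 1) → DD r k + 9 / 10 * (1 - 1 / (r : ℝ)) * DD r k ^ 3 ≤ td F r) := by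
  obtain ⟨s, rfl⟩ : ∃ s, r = s + 3 := ⟨r - 3, by omega⟩
  obtain ⟨hD0, hD1, hC⟩ := DD_facts hr hk
  set D := DD (s + 3) k with hD
  have hpk := pp_eq_zero F (by omega : 2 ≤ s + 3) hk.le hF
  have ht0 := td_nonneg F (s + 3)
  have htl := td_le_one F (s + 3)
  have hs0 : (0 : ℝ) ≤ s := Nat.cast_nonneg s
  have hD3 : D ^ 3 ≤ D * (1 / 9) := by
    have : D ^ 2 ≤ 1 / 9 := by nlinarith
    nlinarith
  have hfrac : 1 - 1 / (((s + 3 : ℕ) : ℝ)) = ((s : ℝ) + 2) / ((s : ℝ) + 3) := by
    push_cast
    have : (0 : ℝ) < (s : ℝ) + 3 := by positivity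
    field_simp
    ring
  have hf1 : ((s : ℝ) + 2) / ((s : ℝ) + 3) ≤ 1 := by
    rw [div_le_one (by positivity)]; linarith
  have hf2 : 2 / 3 ≤ ((s : ℝ) + 2) / ((s : ℝ) + 3) := by
    rw [div_le_div_iff₀ (by norm_num) (by positivity)]; linarith
  set f := ((s : ℝ) + 2) / ((s : ℝ) + 3) with hf
  rcases htl.eq_or_lt with h1 | h1
  · rw [h1, hfrac]
    constructor
    · nlinarith
    · intro _
      have : f * D ^ 3 ≤ D ^ 3 := mul_le_of_le_one_left (by positivity) hf1
      nlinarith
  have h2 := tuple_bound F hk hpk h1
  set t := td F (s + 3) with ht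
  set Z := vari (tau F s) + cher (tau F s) with hZ
  have hZ0 : 0 ≤ Z := add_nonneg vari_nonneg (cher_nonneg (tau_sym F s))
  have hC0 : (0 : ℝ) < ((k - 1).choose (s + 2) : ℝ) := lt_of_lt_of_le (by norm_num) hC
  have h3 : D ≤ t - f * Z := by
    have e : D = 1 / ((k - 1).choose (s + 2) : ℝ) := rfl
    rw [e, div_le_iff₀ hC0, mul_comm]
    exact h2
  have hDt : D ≤ t := by nlinarith [mul_nonneg (by linarith : (0 : ℝ) ≤ f) hZ0]
  have hdt : dens (tau F s) = t := dens_tau F s
  have hD3t : D ^ 3 ≤ t ^ 3 := pow_le_pow_left₀ hD0.le hDt 3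
  constructor
  · by_cases h4 : t ≤ 7 / 20
    · have h5 := core (τ := tau F s) (tau_sym F s) (by rw [hdt]; exact ht0) (by rw [hdt]; exact h4)
      rw [hdt] at h5
      have h6 : D ^ 3 / 25 ≤ Z := by linarith
      have h7 : 2 / 3 * (D ^ 3 / 25) ≤ f * Z := mul_le_mul hf2 h6 (by positivity) (by linarith)
      have : 0 < D ^ 3 := by positivity
      linarith
    · push Not at h4
      nlinarith
  · intro hbig
    rw [hfrac]
    have hDs : D ≤ 1 / 200000 := by
      have e : D = 1 / ((k - 1).choose (s + 2) : ℝ) := rfl
      rw [e]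
      exact one_div_le_one_div_of_le (by norm_num) (by exact_mod_cast hbig)
    by_cases h4 : t ≤ 1 / 100000
    · have h5 := core' (τ := tau F s) (tau_sym F s) (by rw [hdt]; exact ht0) (by rw [hdt]; exact h4)
      rw [hdt] at h5
      have h6 : 9 / 10 * D ^ 3 ≤ Z := by linarith
      have h7 : f * (9 / 10 * D ^ 3) ≤ f * Z := mul_le_mul_of_nonneg_left h6 (by linarith)
      linarith
    · push Not at h4
      have h5 : f * D ^ 3 ≤ D ^ 3 := mul_le_of_le_one_left (by positivity) hf1
      have h6 : D ^ 3 ≤ D * (1 / 9) := hD3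
      linarith

/-- the falling factorial is asymptotically the power -/
theorem desc_ratio (r : ℕ) :
    Tendsto (fun n : ℕ => (n : ℝ) ^ r / (n.descFactorial r : ℝ)) atTop (𝓝 1) := by
  have h : Tendsto (fun n : ℕ => ((n.descFactorial r : ℝ)) / (n : ℝ) ^ r) atTop (𝓝 1) := by
    induction r with
    | zero => simp
    | succ r ih =>
      have h1 : Tendsto (fun n : ℕ => (((n - r : ℕ) : ℝ)) / (n : ℝ)) atTop (𝓝 1) := by
        have h2 : Tendsto (fun n : ℕ => 1 - (r : ℝ) / (n : ℝ)) atTop (𝓝 (1 - 0)) :=
          tendsto_const_nhds.sub (tendsto_const_div_atTop_nhds_zero_nat _)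
        rw [sub_zero] at h2
        refine h2.congr' ?_
        filter_upwards [eventually_ge_atTop (r + 1)] with n hn
        have : (0 : ℝ) < n := by exact_mod_cast (by omega : 0 < n)
        rw [Nat.cast_sub (by omega)]
        field_simp
      have h3 := h1.mul ih
      rw [one_mul] at h3
      refine h3.congr fun n => ?_
      rw [Nat.descFactorial_succ, pow_succ]
      push_cast
      rw [div_mul_div_comm, mul_comm ((n : ℝ)) ((n : ℝ) ^ r)]
  have h2 := h.inv₀ one_ne_zero
  rw [inv_one] at h2
  refine h2.congr fun n => ?_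
  rw [inv_div]

open Pool.Agent.H120R2.Clique in
/-- from a bound for the densities of tuples to the Turán density -/
theorem density_of {r k : ℕ} (hr : 3 ≤ r) (hk : r < k) {c : ℝ}
    (h : ∀ (n : ℕ) (F : Finset (Finset (Fin (n + 1)))), Covers F r k → c ≤ td F r) :
    turanDensity r k ≤ 1 - c := by
  classical
  -- for each n: ex(n) / C(n,r) ≤ 1 - (c n^r - (n^r - desc)) / desc
  have key : ∀ n : ℕ, 1 ≤ n → r ≤ n → (ex n r k : ℝ) / (n.choose r : ℝ) ≤
      (1 - c) * ((n : ℝ) ^ r / (n.descFactorial r : ℝ)) := by
    intro n hn hrn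
    obtain ⟨n, rfl⟩ : ∃ m, n = m + 1 := ⟨n - 1, by omega⟩
    -- an extremal family
    have hne : ((((univ : Finset (Fin (n + 1))).powersetCard r).powerset).filter
        (fun G => ¬ HasClique G r k)).Nonempty := by
      refine ⟨∅, ?_⟩
      rw [mem_filter]
      refine ⟨empty_mem_powerset _, ?_⟩
      rintro ⟨A, hA, hAs⟩
      have : (A.powersetCard r).card = 0 := by
        rw [Finset.card_eq_zero, ← Finset.subset_empty]; exact hAs
      rw [card_powersetCard, hA] at this
      have := Nat.choose_pos (n := k) (k := r) hk.le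
      omega
    obtain ⟨G, hG, hGe⟩ := Finset.exists_mem_eq_sup _ hne Finset.card
    rw [mem_filter, mem_powerset] at hG
    have hex : ex (n + 1) r k = G.card := hGe
    set F := ((univ : Finset (Fin (n + 1))).powersetCard r) \ G with hF
    have hcov : Covers F r k := by
      intro K hK
      by_contra hcon
      push Not at hcon
      apply hG.2
      refine ⟨K, hK, fun T hT => ?_⟩
      rw [mem_powersetCard] at hT
      by_contra hTG
      exact hcon T (Finset.mem_sdiff.mpr ⟨mem_powersetCard.mpr ⟨subset_univ _, hT.2⟩, hTG⟩)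
        hT.2 hT.1
    have h1 := h n F hcov
    have h2 := td_le F r
    rw [Fintype.card_fin] at h2
    have h3 : (F.card : ℝ) = ((n + 1).choose r : ℝ) - G.card := by
      have : F.card + G.card = (n + 1).choose r := by
        rw [hF, card_sdiff_add_card_eq_card hG.1, card_powersetCard, card_univ, Fintype.card_fin]
      have h4 : ((F.card + G.card : ℕ) : ℝ) = (((n + 1).choose r : ℕ) : ℝ) := by rw [this]
      push_cast at h4
      linarith
    have h4 : ((n + 1).descFactorial r : ℝ) = (r.factorial : ℝ) * ((n + 1).choose r : ℝ) := by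
      exact_mod_cast Nat.descFactorial_eq_factorial_mul_choose (n + 1) r
    have hch : (0 : ℝ) < ((n + 1).choose r : ℝ) := by exact_mod_cast Nat.choose_pos hrn
    have hfa : (0 : ℝ) < (r.factorial : ℝ) := by exact_mod_cast Nat.factorial_pos r
    have hde : (0 : ℝ) < ((n + 1).descFactorial r : ℝ) := by rw [h4]; positivity
    have hpw : (0 : ℝ) < ((n + 1 : ℕ) : ℝ) ^ r := by positivity
    rw [hex, div_le_iff₀ hch]
    have h5 : c * ((n + 1 : ℕ) : ℝ) ^ r ≤ td F r * ((n + 1 : ℕ) : ℝ) ^ r :=
      mul_le_mul_of_nonneg_right h1 hpw.le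
    have h6 : (r.factorial : ℝ) * G.card ≤ (1 - c) * ((n + 1 : ℕ) : ℝ) ^ r := by
      rw [h3] at h2
      nlinarith
    have h7 : (1 - c) * (((n + 1 : ℕ) : ℝ) ^ r / ((n + 1).descFactorial r : ℝ)) *
        ((n + 1).choose r : ℝ) = (1 - c) * ((n + 1 : ℕ) : ℝ) ^ r / (r.factorial : ℝ) := by
      rw [h4]; field_simp
    rw [h7, le_div_iff₀ hfa]
    linarith
  have hl : Tendsto (fun n : ℕ => (1 - c) * ((n : ℝ) ^ r / (n.descFactorial r : ℝ))) atTop
      (𝓝 ((1 - c) * 1)) := (desc_ratio r).const_mul _
  rw [mul_one] at hl
  refine le_of_tendsto_of_tendsto (ratio_tendsto r k) hl ?_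
  filter_upwards [eventually_ge_atTop (r + 1)] with n hn
  exact key n (by omega) (by omega)

open Pool.Agent.H120R2.Clique in
theorem main {r k : ℕ} (hr : 3 ≤ r) (hk : r < k) :
    turanDensity r k ≤ 1 - (DD r k + DD r k ^ 3 / 40) ∧
    (200000 ≤ (k - 1).choose (r - 1) →
      turanDensity r k ≤ 1 - (DD r k + 9 / 10 * (1 - 1 / (r : ℝ)) * DD r k ^ 3)) :=
  ⟨density_of hr hk fun n F hF => (td_ge F hr hk hF).1,
    fun hb => density_of hr hk fun n F hF => (td_ge F hr hk hF).2 hb⟩

end Pool.Agent.TH440.DC
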