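import Pool.Agent.TH440.DC.Av

/-!
# Random tuples of vertices

For a family `F` of sets of vertices and a tuple `S : ι → V`, the set `R` of coordinates is a member
(`Mem F S R`) if `S` is not injective on `R` or the image of `R` belongs to `F`. `Cl F r S I`: no
set of `r` coordinates inside `I` is a member.
-/

set_option linter.unusedSectionVars false
set_option linter.unusedVariables false
set_option linter.unnecessarySeqFocus false

namespace Pool.Agent.TH440.DC

open Finset

section av

variable {V : Type*} [Fintype V] [Nonempty V] {ι κ : Type*} [Fintype ι] [DecidableEq ι] [Fintype κ]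
  [DecidableEq κ]

/-- averages over tuples: restriction to a part of the coordinates -/
theorem av_comp (e : κ ↪ ι) (f : (κ → V) → ℝ) : av (fun S : ι → V => f (S ∘ e)) = av f := by
  classical
  let C := {i : ι // i ∉ Set.range e}
  let E : κ ⊕ C ≃ ι := Equiv.ofBijective (Sum.elim e (fun i => i.1)) (by
    constructor
    · rintro (a | a) (b | b) h
      · simp only [Sum.elim_inl] at h
        rw [e.injective h]
      · simp only [Sum.elim_inl, Sum.elim_inr] at h
        exact absurd ⟨a, h⟩ b.2
      · simp only [Sum.elim_inl, Sum.elim_inr] at h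
        exact absurd ⟨b, h.symm⟩ a.2
      · simp only [Sum.elim_inr] at h
        rw [Subtype.ext h]
    · intro i
      by_cases hi : i ∈ Set.range e
      · obtain ⟨a, ha⟩ := hi
        exact ⟨Sum.inl a, ha⟩
      · exact ⟨Sum.inr ⟨i, hi⟩, rfl⟩)
  let G : (ι → V) ≃ (κ → V) × (C → V) :=
    (Equiv.arrowCongr E.symm (Equiv.refl V)).trans (Equiv.sumArrowEquivProdArrow κ C V)
  have h1 : ∀ S : ι → V, (G S).1 = S ∘ e := by
    intro S
    funext a
    rfl
  have h2 : av (fun S : ι → V => f (S ∘ e)) = av (fun p : (κ → V) × (C → V) => f p.1) := by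
    refine Eq.trans ?_ (av_equiv G (fun p : (κ → V) × (C → V) => f p.1))
    exact av_congr fun S => by rw [h1]
  rw [h2, av_prod]
  refine av_congr fun x => ?_
  show av (fun _ : C → V => f x) = f x
  exact av_const _

theorem av_sumArrow (f : (κ ⊕ ι → V) → ℝ) :
    av f = av fun A : κ → V => av fun p : ι → V => f (Sum.elim A p) := by
  rw [← av_prod (fun q : (κ → V) × (ι → V) => f (Sum.elim q.1 q.2))]
  rw [← av_equiv (Equiv.sumArrowEquivProdArrow κ ι V)]
  refine av_congr fun S => ?_
  have : Sum.elim ((Equiv.sumArrowEquivProdArrow κ ι V) S).1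
      ((Equiv.sumArrowEquivProdArrow κ ι V) S).2 = S := by
    funext i
    rcases i with i | i <;> rfl
  rw [this]

theorem av_fin_succ {m : ℕ} (f : (Fin (m + 1) → V) → ℝ) :
    av f = av fun x : V => av fun p : Fin m → V => f (Matrix.vecCons x p) := by
  rw [← av_prod (fun q : V × (Fin m → V) => f (Matrix.vecCons q.1 q.2))]
  exact (av_equiv (Fin.consEquiv (fun _ : Fin (m + 1) => V)) f).symm

theorem av_fin_zero (f : (Fin 0 → V) → ℝ) : av f = f ![] := by
  unfold av
  rw [Fintype.card_unique, Nat.cast_one, div_one, Fintype.sum_unique]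
  congr 1

theorem av_fin_four (f : (Fin 4 → V) → ℝ) :
    av f = av fun x => av fun y => av fun u => av fun u' => f ![x, y, u, u'] := by
  rw [av_fin_succ]; refine av_congr fun x => ?_
  rw [av_fin_succ]; refine av_congr fun y => ?_
  rw [av_fin_succ]; refine av_congr fun u => ?_
  rw [av_fin_succ]; refine av_congr fun u' => ?_
  rw [av_fin_zero]

theorem av_fin_three (f : (Fin 3 → V) → ℝ) :
    av f = av fun x => av fun y => av fun u => f ![x, y, u] := by
  rw [av_fin_succ]; refine av_congr fun x => ?_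
  rw [av_fin_succ]; refine av_congr fun y => ?_
  rw [av_fin_succ]; refine av_congr fun u => ?_
  rw [av_fin_zero]

theorem av_fin_two (f : (Fin 2 → V) → ℝ) :
    av f = av fun x => av fun y => f ![x, y] := by
  rw [av_fin_succ]; refine av_congr fun x => ?_
  rw [av_fin_succ]; refine av_congr fun y => ?_
  rw [av_fin_zero]

theorem av_fin_one (f : (Fin 1 → V) → ℝ) : av f = av fun x => f ![x] := by
  rw [av_fin_succ]; refine av_congr fun x => ?_
  rw [av_fin_zero]

/-- change of the index type -/
theorem av_reindex (σ : κ ≃ ι) (f : (ι → V) → ℝ) : av f = av fun S : κ → V => f (S ∘ σ.symm) := by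
  rw [← av_equiv (Equiv.arrowCongr σ (Equiv.refl V))]
  rfl

end av

section mem

variable {V : Type*} [DecidableEq V] (F : Finset (Finset V)) {ι κ : Type*} [DecidableEq ι]
  [DecidableEq κ]

/-- the set `R` of coordinates is a member -/
def Mem (S : ι → V) (R : Finset ι) : Prop := ¬ Set.InjOn S (R : Set ι) ∨ R.image S ∈ F

/-- no `r` coordinates in `I` form a member -/
def Cl (r : ℕ) (S : ι → V) (I : Finset ι) : Prop := ∀ R ⊆ I, R.card = r → ¬ Mem F S R

theorem Mem_comp (e : κ ↪ ι) (S : ι → V) (R : Finset κ) :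
    Mem F (S ∘ e) R ↔ Mem F S (R.map e) := by
  unfold Mem
  have h1 : Set.InjOn (S ∘ e) (R : Set κ) ↔ Set.InjOn S ((R.map e : Finset ι) : Set ι) := by
    rw [Finset.coe_map]
    constructor
    · rintro h _ ⟨a, ha, rfl⟩ _ ⟨b, hb, rfl⟩ hab
      rw [h ha hb hab]
    · intro h a ha b hb hab
      exact e.injective (h ⟨a, ha, rfl⟩ ⟨b, hb, rfl⟩ hab)
  have h2 : R.image (S ∘ e) = (R.map e).image S := by
    rw [Finset.map_eq_image, Finset.image_image]
  rw [h1, h2]

theorem Cl_comp (r : ℕ) (e : κ ↪ ι) (S : ι → V) (I : Finset κ) :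
    Cl F r (S ∘ e) I ↔ Cl F r S (I.map e) := by
  unfold Cl
  constructor
  · intro h R hR hr
    obtain ⟨R', hR', rfl⟩ := Finset.subset_map_iff.mp hR
    rw [Finset.card_map] at hr
    rw [← Mem_comp]
    exact h R' hR' hr
  · intro h R hR hr
    rw [Mem_comp]
    exact h _ (Finset.map_subset_map.mpr hR) (by rw [Finset.card_map]; exact hr)

theorem Cl_mono {r : ℕ} {S : ι → V} {I J : Finset ι} (h : I ⊆ J) (hJ : Cl F r S J) : Cl F r S I :=
  fun R hR hr => hJ R (hR.trans h) hr

open Classical in
/-- indicator of `Mem` -/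
noncomputable def mi (S : ι → V) (R : Finset ι) : ℝ := if Mem F S R then 1 else 0

open Classical in
/-- indicator of `Cl` -/
noncomputable def ci (r : ℕ) (S : ι → V) (I : Finset ι) : ℝ := if Cl F r S I then 1 else 0

theorem mi_bit (S : ι → V) (R : Finset ι) : mi F S R = 0 ∨ mi F S R = 1 := by
  unfold mi; split_ifs <;> simp

theorem ci_bit (r : ℕ) (S : ι → V) (R : Finset ι) : ci F r S R = 0 ∨ ci F r S R = 1 := by
  unfold ci; split_ifs <;> simp

theorem ci_nonneg (r : ℕ) (S : ι → V) (R : Finset ι) : 0 ≤ ci F r S R := by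
  rcases ci_bit F r S R with h | h <;> rw [h] <;> norm_num

theorem ci_le_one (r : ℕ) (S : ι → V) (R : Finset ι) : ci F r S R ≤ 1 := by
  rcases ci_bit F r S R with h | h <;> rw [h] <;> norm_num

theorem mi_nonneg (S : ι → V) (R : Finset ι) : 0 ≤ mi F S R := by
  rcases mi_bit F S R with h | h <;> rw [h] <;> norm_num

theorem mi_le_one (S : ι → V) (R : Finset ι) : mi F S R ≤ 1 := by
  rcases mi_bit F S R with h | h <;> rw [h] <;> norm_num

theorem mi_comp (e : κ ↪ ι) (S : ι → V) (R : Finset κ) : mi F (S ∘ e) R = mi F S (R.map e) := by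
  unfold mi
  by_cases h : Mem F (S ∘ e) R
  · rw [if_pos h, if_pos ((Mem_comp F e S R).mp h)]
  · rw [if_neg h, if_neg (fun hh => h ((Mem_comp F e S R).mpr hh))]

theorem ci_comp (r : ℕ) (e : κ ↪ ι) (S : ι → V) (R : Finset κ) :
    ci F r (S ∘ e) R = ci F r S (R.map e) := by
  unfold ci
  by_cases h : Cl F r (S ∘ e) R
  · rw [if_pos h, if_pos ((Cl_comp F r e S R).mp h)]
  · rw [if_neg h, if_neg (fun hh => h ((Cl_comp F r e S R).mpr hh))]

theorem ci_anti {r : ℕ} {S : ι → V} {I J : Finset ι} (h : I ⊆ J) : ci F r S J ≤ ci F r S I := by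
  unfold ci
  split_ifs with h1 h2
  · exact le_refl _
  · exact absurd (Cl_mono F h h1) h2
  · norm_num
  · exact le_refl _

end mem

section dens

variable {V : Type*} [Fintype V] [DecidableEq V] [Nonempty V] (F : Finset (Finset V)) (r : ℕ)

/-- the density of the cliques of size `j` -/
noncomputable def pp (j : ℕ) : ℝ := av fun S : Fin j → V => ci F r S univ

theorem pp_nonneg (j : ℕ) : 0 ≤ pp F r j := av_nonneg fun S => ci_nonneg _ _ _ _

variable {ι : Type*} [Fintype ι] [DecidableEq ι]

/-- an embedding of `Fin j` with a given range of size `j` -/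
theorem exists_emb {j : ℕ} {I : Finset ι} (h : I.card = j) :
    ∃ e : Fin j ↪ ι, univ.map e = I := by
  classical
  let E : Fin j ≃ I := (Fintype.equivFinOfCardEq (by rw [Fintype.card_coe, h])).symm
  refine ⟨E.toEmbedding.trans (Function.Embedding.subtype _), ?_⟩
  ext x
  simp only [mem_map, mem_univ, true_and, Function.Embedding.trans_apply,
    Function.Embedding.subtype_apply, Equiv.coe_toEmbedding]
  constructor
  · rintro ⟨a, rfl⟩; exact (E a).2
  · intro hx; exact ⟨E.symm ⟨x, hx⟩, by simp⟩

theorem av_ci {j : ℕ} {I : Finset ι} (h : I.card = j) :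
    av (fun S : ι → V => ci F r S I) = pp F r j := by
  obtain ⟨e, he⟩ := exists_emb h
  rw [pp, ← av_comp e]
  refine av_congr fun S => ?_
  rw [ci_comp, he]

theorem av_mi {j : ℕ} {I : Finset ι} (h : I.card = j) :
    av (fun S : ι → V => mi F S I) = av fun S : Fin j → V => mi F S univ := by
  obtain ⟨e, he⟩ := exists_emb h
  rw [← av_comp e]
  refine av_congr fun S => ?_
  rw [mi_comp, he]

/-- a bijection extending an injection of `Fin m` -/
theorem exists_sum_equiv {s m : ℕ} (h : Fintype.card ι = s + m) (e : Fin m ↪ ι) :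
    ∃ σ : Fin s ⊕ Fin m ≃ ι, ∀ i, σ (Sum.inr i) = e i := by
  classical
  have hc : Fintype.card {i : ι // i ∉ Set.range e} = s := by
    have h1 : Fintype.card {i : ι // i ∈ Set.range e} = m := by
      have := Fintype.card_congr (Equiv.ofInjective e e.injective)
      rw [Fintype.card_fin] at this
      exact this.symm
    have h2 := Fintype.card_subtype_compl (fun i : ι => i ∈ Set.range e)
    rw [h2, h1, h]
    omega
  let E : Fin s ≃ {i : ι // i ∉ Set.range e} := (Fintype.equivFinOfCardEq hc).symm
  refine ⟨Equiv.ofBijective (Sum.elim (fun i => (E i).1) e) ?_, fun i => rfl⟩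
  constructor
  · rintro (a | a) (b | b) hab
    · simp only [Sum.elim_inl] at hab
      rw [E.injective (Subtype.ext hab)]
    · simp only [Sum.elim_inl, Sum.elim_inr] at hab
      exact absurd ⟨b, hab.symm⟩ (E a).2
    · simp only [Sum.elim_inl, Sum.elim_inr] at hab
      exact absurd ⟨a, hab⟩ (E b).2
    · simp only [Sum.elim_inr] at hab
      rw [e.injective hab]
  · intro i
    by_cases hi : i ∈ Set.range e
    · obtain ⟨a, ha⟩ := hi
      exact ⟨Sum.inr a, ha⟩
    · exact ⟨Sum.inl (E.symm ⟨i, hi⟩), by simp⟩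

theorem compl_map {κ : Type*} [Fintype κ] [DecidableEq κ] {σ : κ ≃ ι} (i : κ) :
    (({σ i}ᶜ : Finset ι)).map σ.symm.toEmbedding = {i}ᶜ := by
  ext x
  simp only [mem_map, mem_compl, mem_singleton, Equiv.coe_toEmbedding]
  constructor
  · rintro ⟨a, ha, rfl⟩ hh
    exact ha (by rw [← hh, Equiv.apply_symm_apply])
  · intro hx
    exact ⟨σ x, fun hh => hx (σ.injective hh), by simp⟩

end dens

end Pool.Agent.TH440.DC
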